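import Pool.Agent.Lib.MP_9f7b43_nt.Statement

/-! # MP_9f7b43_nt, part L: the diagonal sequence -/

namespace MP9f7b43

open Filter Topology

theorem chordal_nonneg' {ι : Type} [Fintype ι] (x y : Projectivization ℚ (ι → ℚ)) :
    0 ≤ chordal x y := by
  unfold chordal
  refine div_nonneg (Real.iSup_nonneg fun _ => abs_nonneg _) (mul_nonneg ?_ ?_)
  · exact Real.iSup_nonneg fun _ => abs_nonneg _
  · exact Real.iSup_nonneg fun _ => abs_nonneg _

/-- If the approximation constant is at most `t`, then there is one sequence of distinct points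
with all exponents `t + ε`. -/
theorem diag {ι : Type} [Fintype ι] (S : Set (Projectivization ℚ (ι → ℚ)))
    (P : Projectivization ℚ (ι → ℚ)) (t : ℝ) (ht : 0 ≤ t) (h : alpha S P ≤ (t : EReal)) :
    ∃ y : ℕ → Projectivization ℚ (ι → ℚ), Function.Injective y ∧ (∀ n, y n ∈ S) ∧
      Tendsto (fun n => chordal P (y n)) atTop (𝓝 0) ∧
      ∀ ε : ℝ, 0 < ε → ∀ᶠ n in atTop, chordal P (y n) ^ (t + ε) * (y n).mulHeight ≤ 1 := by
  classical
  -- the sets of good points
  have hA : ∀ k : ℕ, ∃ x : ℕ → Projectivization ℚ (ι → ℚ), Function.Injective x ∧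
      (∀ n, x n ∈ S) ∧ ∀ᶠ n in atTop, chordal P (x n) ≤ 1 / ((k : ℝ) + 1) ∧
        chordal P (x n) ^ (t + 2 / ((k : ℝ) + 1)) * (x n).mulHeight ≤ 1 := by
    intro k
    have hk : 0 < 1 / ((k : ℝ) + 1) := by positivity
    have h1 : alpha S P < ((t + 1 / ((k : ℝ) + 1) : ℝ) : EReal) := by
      refine lt_of_le_of_lt h ?_
      exact_mod_cast (by linarith : t < t + 1 / ((k : ℝ) + 1))
    unfold alpha at h1
    obtain ⟨a, ⟨x, hinj, hS, rfl⟩, ha⟩ := sInf_lt_iff.mp h1
    unfold alphaSeq at ha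
    obtain ⟨g, ⟨r, rfl, hlim, B, hB⟩, hr⟩ := sInf_lt_iff.mp ha
    have hr' : r < t + 1 / ((k : ℝ) + 1) := by exact_mod_cast hr
    refine ⟨x, hinj, hS, ?_⟩
    set B' : ℝ := max B 1 with hB'
    have hB'1 : 1 ≤ B' := le_max_right _ _
    have hBn : ∀ n, chordal P (x n) ^ r * (x n).mulHeight ≤ B' := fun n =>
      le_trans (hB ⟨n, rfl⟩) (le_max_left _ _)
    set e : ℝ := t + 2 / ((k : ℝ) + 1) - r with he
    have hepos : 0 < e := by
      have : 2 / ((k : ℝ) + 1) = 1 / ((k : ℝ) + 1) + 1 / ((k : ℝ) + 1) := by ring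
      rw [he, this]
      linarith
    have h2 : Tendsto (fun n => chordal P (x n) ^ e) atTop (𝓝 0) := by
      have := (Real.continuousAt_rpow_const 0 e (Or.inr hepos.le)).tendsto.comp hlim
      rw [Real.zero_rpow hepos.ne'] at this
      exact this
    filter_upwards [hlim.eventually_lt_const hk,
      h2.eventually_lt_const (show (0 : ℝ) < 1 / B' by positivity)] with n hn1 hn2
    refine ⟨hn1.le, ?_⟩
    rcases (chordal_nonneg' P (x n)).eq_or_lt with h0 | h0
    · rw [← h0, Real.zero_rpow (by positivity), zero_mul]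
      exact zero_le_one
    · have h3 : chordal P (x n) ^ (t + 2 / ((k : ℝ) + 1))
          = chordal P (x n) ^ e * chordal P (x n) ^ r := by
        rw [← Real.rpow_add h0]
        congr 1
        rw [he]; ring
      have h4 : 0 ≤ chordal P (x n) ^ e := Real.rpow_nonneg h0.le _
      calc chordal P (x n) ^ (t + 2 / ((k : ℝ) + 1)) * (x n).mulHeight
          = chordal P (x n) ^ e * (chordal P (x n) ^ r * (x n).mulHeight) := by
            rw [h3, mul_assoc]
        _ ≤ chordal P (x n) ^ e * B' := mul_le_mul_of_nonneg_left (hBn n) h4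
        _ ≤ 1 / B' * B' := by gcongr
        _ = 1 := by field_simp
  -- the choice of new points
  obtain ⟨f, hf1, hf2⟩ := exists_seq_of_forall_finset_exists
    (α := ℕ × Projectivization ℚ (ι → ℚ))
    (fun q => q.2 ∈ S ∧ chordal P q.2 ≤ 1 / ((q.1 : ℝ) + 1) ∧
      chordal P q.2 ^ (t + 2 / ((q.1 : ℝ) + 1)) * q.2.mulHeight ≤ 1)
    (fun q q' => q.1 < q'.1 ∧ q.2 ≠ q'.2) (by
      intro s _
      obtain ⟨x, hinj, hS, hev⟩ := hA (s.sup Prod.fst + 1)
      have hfin : {n | x n ∈ s.image Prod.snd}.Finite :=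
        (s.image Prod.snd).finite_toSet.preimage hinj.injOn
      have hev2 : ∀ᶠ n in atTop, x n ∉ s.image Prod.snd := by
        have := hfin.compl_mem_cofinite
        rw [Nat.cofinite_eq_atTop] at this
        exact this
      obtain ⟨n, hn1, hn2⟩ := (hev.and hev2).exists
      refine ⟨(s.sup Prod.fst + 1, x n), ⟨hS n, hn1.1, hn1.2⟩, ?_⟩
      intro q hq
      refine ⟨Nat.lt_succ_of_le (Finset.le_sup (f := Prod.fst) hq), ?_⟩
      intro heq
      exact hn2 (Finset.mem_image.mpr ⟨q, hq, heq⟩))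
  have hmono : ∀ n, n ≤ (f n).1 := by
    intro n
    induction n with
    | zero => exact Nat.zero_le _
    | succ n ih => exact Nat.succ_le_of_lt (lt_of_le_of_lt ih (hf2 n (n + 1) (Nat.lt_succ_self n)).1)
  have hkn : ∀ n : ℕ, 1 / (((f n).1 : ℝ) + 1) ≤ 1 / ((n : ℝ) + 1) := by
    intro n
    have : (n : ℝ) ≤ (f n).1 := by exact_mod_cast hmono n
    have h0 : (0 : ℝ) ≤ n := Nat.cast_nonneg n
    gcongr
  refine ⟨fun n => (f n).2, ?_, fun n => (hf1 n).1, ?_, ?_⟩
  · intro m n hmn
    rcases lt_trichotomy m n with hlt | heq | hgt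
    · exact absurd hmn (hf2 m n hlt).2
    · exact heq
    · exact absurd hmn.symm (hf2 n m hgt).2
  · refine squeeze_zero (fun n => chordal_nonneg' _ _)
      (fun n => le_trans (hf1 n).2.1 (hkn n)) tendsto_one_div_add_atTop_nhds_zero_nat
  · intro ε hε
    have h5 : ∀ᶠ n : ℕ in atTop, 1 / ((n : ℝ) + 1) < ε / 2 :=
      tendsto_one_div_add_atTop_nhds_zero_nat.eventually_lt_const (by linarith)
    filter_upwards [h5] with n hn
    obtain ⟨-, hq1, hq2⟩ := hf1 n
    have hc0 := chordal_nonneg' P (f n).2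
    have hc1 : chordal P (f n).2 ≤ 1 := by
      refine le_trans hq1 ?_
      rw [div_le_one (by positivity)]
      linarith [Nat.cast_nonneg (α := ℝ) (f n).1]
    have hexp : t + 2 / (((f n).1 : ℝ) + 1) ≤ t + ε := by
      have h6 : 2 / (((f n).1 : ℝ) + 1) = 2 * (1 / (((f n).1 : ℝ) + 1)) := by ring
      rw [h6]
      linarith [hkn n]
    have h7 : chordal P (f n).2 ^ (t + ε) ≤ chordal P (f n).2 ^ (t + 2 / (((f n).1 : ℝ) + 1)) :=
      Real.rpow_le_rpow_of_exponent_ge' hc0 hc1 (by positivity) hexp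
    have hH : 0 ≤ ((f n).2).mulHeight := by
      have := Projectivization.one_le_mulHeight (f n).2
      linarith
    exact le_trans (mul_le_mul_of_nonneg_right h7 hH) hq2

end MP9f7b43
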