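import Mathlib

/-!
# MP_9f7b43_nt, part L: definitions

`x : ι → L` are generators of a function field `L / ℚ` of one variable, `p n : ι → ℚ` are rational
points of the affine curve `Spec ℚ[x]`, `Φ : L →+* ℝ*` is the evaluation along the points `p n`
with values in the hyperreal numbers.
-/

namespace MP9f7b43.L

open MvPolynomial Filter ArchimedeanClass

/-- `L` is a function field in one variable over `ℚ`, and every element of `L` is a quotient of
polynomials in the `x i`. -/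
structure CurveField {ι : Type} {L : Type} [Field L] [Algebra ℚ L] (x : ι → L) : Prop where
  frac : ∀ y : L, ∃ g h : MvPolynomial ι ℚ, aeval x h ≠ 0 ∧ y = aeval x g / aeval x h
  trdeg : Algebra.trdeg ℚ L = 1

/-- `p n`, `n : ℕ`, are pairwise distinct rational points of the affine curve with coordinate ring
`ℚ[x]`. -/
structure Specs {ι : Type} {L : Type} [Field L] [Algebra ℚ L] (x : ι → L)
    (p : ℕ → ι → ℚ) : Prop where
  inj : Function.Injective p
  spec : ∀ g : MvPolynomial ι ℚ, aeval x g = 0 → ∀ n, eval (p n) g = 0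

/-- The evaluation homomorphism along the points `p n`, with values in the hyperreal numbers. -/
def EvHom {ι : Type} {L : Type} [Field L] [Algebra ℚ L] (x : ι → L) (p : ℕ → ι → ℚ)
    (Φ : L →+* Hyperreal) : Prop :=
  ∀ i, Φ (x i) = Hyperreal.ofSeq fun n => (p n i : ℝ)

/-- The statement of the theorem of Thue, Siegel and Dyson for near-integral points of a curve:
if the points `p n` have denominators `N n` which are `M n ^ o(1)`, where `M n → ∞` is the maximum
of the absolute values of the coordinates, then the ring of elements of `L` which stay bounded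
along the points is the only valuation ring of `L / ℚ` which does not contain all coordinates,
and its residue field has degree at most `2` over `ℚ`. -/
def SDStmt : Prop :=
  ∀ (ι : Type) [Fintype ι] (L : Type) [Field L] [Algebra ℚ L] (x : ι → L) (p : ℕ → ι → ℚ)
    (N : ℕ → ℕ), CurveField x → Specs x p → (∀ n, 0 < N n) →
    (∀ n i, ∃ m : ℤ, (N n : ℚ) * p n i = m) →
    Tendsto (fun n => ∑ i, |(p n i : ℝ)|) atTop atTop →
    (∀ ε : ℝ, 0 < ε → ∀ᶠ n in atTop, (N n : ℝ) ≤ (∑ i, |(p n i : ℝ)|) ^ ε) →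
    ∀ Φ : L →+* Hyperreal, EvHom x p Φ →
      (∀ V : ValuationSubring L, (∀ q : ℚ, algebraMap ℚ L q ∈ V) → (∃ i, x i ∉ V) →
        ∀ y : L, y ∈ V ↔ 0 ≤ ArchimedeanClass.mk (Φ y)) ∧
      ∃ F : IntermediateField ℚ ℝ, FiniteDimensional ℚ F ∧ Module.finrank ℚ F ≤ 2 ∧
        ∀ y : L, 0 ≤ ArchimedeanClass.mk (Φ y) → stdPart (Φ y) ∈ F

/-! ## The nine coordinates of part L: `u = ∑ x (0,l) ρ^l`, `v = ∑ x (1,l) ρ^l`, `z = ∑ x (2,l) ρ^l`,
where `ρ ^ 3 = ρ + 1`. -/

/-- The index type of the nine rational coordinates: `(j, l)`, `j = 0, 1, 2` for `u, v, z`. -/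
abbrev I9 : Type := Fin 3 × Fin 3

/-- The affine equation of the cubic surface: `F (u, v, z, 1)`. -/
def Faff {R : Type*} [CommRing R] (u v z : R) : R :=
  (u ^ 2 - u * v + v ^ 2) * z + 4 * u ^ 3 - 15 * u ^ 2 * v + 3 * u * v ^ 2 + 4 * v ^ 3
    + (z ^ 2 + 56 * z + 931)

/-- The polynomial `∑ l, x (j,l) t ^ l`; it represents the coordinate `j` in
`K ⊗ L = L[t] / (t ^ 3 - t - 1)`. -/
noncomputable def gen {L : Type} [CommRing L] (x : I9 → L) (j : Fin 3) : Polynomial L :=
  ∑ l : Fin 3, Polynomial.C (x (j, l)) * Polynomial.X ^ (l : ℕ)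

/-- The generic point lies on the surface over `K ⊗ L = L[t] / (t ^ 3 - t - 1)`. -/
def OnSurf {L : Type} [CommRing L] (x : I9 → L) : Prop :=
  (Polynomial.X ^ 3 - Polynomial.X - 1 : Polynomial L) ∣ Faff (gen x 0) (gen x 1) (gen x 2)

/-- The value of the coordinate `j` at the root `r` of `t ^ 3 - t - 1`. -/
noncomputable def comp (r : ℂ) (p : I9 → ℚ) (j : Fin 3) : ℂ :=
  ∑ l : Fin 3, ((p (j, l) : ℚ) : ℂ) * r ^ (l : ℕ)

/-- The statement of Theorem O (obstruction for at most two places at infinity). -/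
def OStmt : Prop :=
  ∀ (L : Type) [Field L] [Algebra ℚ L] (x : I9 → L), CurveField x →
    (∀ y : L, IsAlgebraic ℚ y → ∃ q : ℚ, algebraMap ℚ L q = y) → OnSurf x →
    ∀ O : ValuationSubring L, (∀ q : ℚ, algebraMap ℚ L q ∈ O) →
    (∀ V : ValuationSubring L, (∀ q : ℚ, algebraMap ℚ L q ∈ V) → (∃ i, x i ∉ V) → V = O) →
    ∀ F : IntermediateField ℚ ℝ, FiniteDimensional ℚ F → Module.finrank ℚ F ≤ 2 →
    ∀ res : O →+* ℝ, (∀ y : O, res y ∈ F) → (∀ y : O, res y = 0 ↔ (y : L) ∈ O.nonunits) →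
    ∀ s : L, s ≠ 0 → s ∈ O.nonunits →
      (∀ l : Fin 3, s * x (0, l) ∈ O) → (∀ l : Fin 3, s * x (1, l) ∈ O) →
      (∀ l : Fin 3, s ^ 2 * x (2, l) ∈ O) →
      (∃ l : Fin 3, s * x (0, l) ∉ O.nonunits ∨ s * x (1, l) ∉ O.nonunits) →
      (∃ l : Fin 3, s ^ 2 * x (2, l) ∉ O.nonunits) → False

/-- The statement of part L: there is no critical sequence. `δ n` is (a constant times) the
distance of the point to `P`, `N n * ∏ ‖z‖` is (up to a constant) a lower bound of its height,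
and `r` are the three complex roots of `t ^ 3 - t - 1`. -/
def LStmt : Prop :=
  ∀ r : Fin 3 → ℂ, (∀ s, r s ^ 3 = r s + 1) → Function.Injective r →
    ∀ (L : Type) [Field L] [Algebra ℚ L] (x : I9 → L) (p : ℕ → I9 → ℚ) (N : ℕ → ℕ)
      (δ : ℕ → ℝ), CurveField x → Specs x p → (∀ n, 0 < N n) →
      (∀ n i, ∃ m : ℤ, (N n : ℚ) * p n i = m) → (∀ n, 0 < δ n) → Tendsto δ atTop (nhds 0) →
      (∀ n s, Faff (comp (r s) (p n) 0) (comp (r s) (p n) 1) (comp (r s) (p n) 2) = 0) →
      (∀ n s, 1 ≤ δ n * ‖comp (r s) (p n) 2‖) →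
      (∀ n s, ‖comp (r s) (p n) 0‖ ≤ δ n * ‖comp (r s) (p n) 2‖) →
      (∀ n s, ‖comp (r s) (p n) 1‖ ≤ δ n * ‖comp (r s) (p n) 2‖) →
      (∀ ε : ℝ, 0 < ε → ∀ᶠ n in atTop,
        δ n ^ (6 + ε) * ((N n : ℝ) * ∏ s, ‖comp (r s) (p n) 2‖) ≤ 1) → False

end MP9f7b43.L
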