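import Pool.Agent.Lib.MP_9f7b43_nt.L.Defs

/-!
# MP_9f7b43_nt, part L: elementary algebra of a function field in one variable over the rationals

* `dep`: any two elements of `L` are algebraically dependent over the rationals.
* `ev_ne`: a polynomial which is not zero on the curve vanishes at finitely many of the points `p n`.
* `EV`, `EV_*`: extension of the evaluations to `L`, for almost all `n`.
* `exists_evHom`: the evaluation homomorphism with values in the hyperreal numbers.
* `qac`: the rationals are algebraically closed in `L`.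
* `rank_one`: a valuation ring of `L` which contains the rationals has rank at most one.
-/

set_option autoImplicit false

namespace MP9f7b43.L

open Filter

/-- The value of a polynomial in two variables at `(f, g)`. -/
noncomputable def bi {R : Type*} [CommRing R] [Algebra ℚ R] (f g : R)
    (P : Polynomial (Polynomial ℚ)) : R :=
  P.eval₂ (Polynomial.aeval f : Polynomial ℚ →ₐ[ℚ] R).toRingHom g

/-- Any two elements are algebraically dependent over the rationals. -/
def Dep (L : Type*) [Field L] [Algebra ℚ L] : Prop :=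
  ∀ f g : L, ∃ P : Polynomial (Polynomial ℚ), P ≠ 0 ∧ bi f g P = 0

section bi

variable {R S : Type*} [CommRing R] [Algebra ℚ R] [CommRing S] [Algebra ℚ S]

theorem bi_mul (f g : R) (P Q : Polynomial (Polynomial ℚ)) : bi f g (P * Q) = bi f g P * bi f g Q :=
  Polynomial.eval₂_mul _ _

theorem bi_add (f g : R) (P Q : Polynomial (Polynomial ℚ)) : bi f g (P + Q) = bi f g P + bi f g Q :=
  Polynomial.eval₂_add _ _

theorem bi_pow (f g : R) (P : Polynomial (Polynomial ℚ)) (m : ℕ) : bi f g (P ^ m) = bi f g P ^ m :=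
  Polynomial.eval₂_pow _ _ _

theorem bi_X (f g : R) : bi f g Polynomial.X = g := Polynomial.eval₂_X _ _

theorem bi_C (f g : R) (p : Polynomial ℚ) : bi f g (Polynomial.C p) = Polynomial.aeval f p :=
  Polynomial.eval₂_C _ _

theorem bi_map (φ : R →ₐ[ℚ] S) (f g : R) (P : Polynomial (Polynomial ℚ)) :
    φ (bi f g P) = bi (φ f) (φ g) P := by
  have h : (φ : R →+* S).comp (Polynomial.aeval f : Polynomial ℚ →ₐ[ℚ] R).toRingHom =
      (Polynomial.aeval (φ f) : Polynomial ℚ →ₐ[ℚ] S).toRingHom := by
    ext q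
    · simp
    · simp
  unfold bi
  rw [← h]
  exact Polynomial.hom_eval₂ P _ (φ : R →+* S) g

theorem bi_zero_left (q : R) (P : Polynomial (Polynomial ℚ)) :
    bi 0 q P = Polynomial.aeval q (P.map (Polynomial.evalRingHom (0 : ℚ))) := by
  unfold bi
  rw [Polynomial.aeval_def, Polynomial.eval₂_map]
  congr 1
  ext r
  · simp
  · simp

end bi

section Dep

variable {L : Type*} [Field L] [Algebra ℚ L]

/-- Division by the largest power of the first variable. -/
theorem dep_div_left (hD : Dep L) (f g : L) (hf : f ≠ 0) :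
    ∃ P : Polynomial (Polynomial ℚ), P.map (Polynomial.evalRingHom (0 : ℚ)) ≠ 0 ∧ bi f g P = 0 := by
  obtain ⟨P, hP, hP0⟩ := hD f g
  have hfin : FiniteMultiplicity
      (Polynomial.C (Polynomial.X : Polynomial ℚ) : Polynomial (Polynomial ℚ)) P := by
    refine FiniteMultiplicity.of_not_isUnit ?_ hP
    intro h
    have h1 : IsUnit (Polynomial.X : Polynomial ℚ) := Polynomial.isUnit_C.1 h
    exact Polynomial.not_isUnit_X h1
  obtain ⟨Q, hQ, hQ0⟩ := hfin.exists_eq_pow_mul_and_not_dvd
  refine ⟨Q, ?_, ?_⟩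
  · intro h
    apply hQ0
    rw [Polynomial.C_dvd_iff_dvd_coeff]
    intro i
    rw [Polynomial.X_dvd_iff, Polynomial.coeff_zero_eq_eval_zero]
    have h1 := congrArg (fun p => Polynomial.coeff p i) h
    simpa using h1
  · rw [hQ, bi_mul, bi_pow, bi_C, Polynomial.aeval_X] at hP0
    exact (mul_eq_zero.1 hP0).resolve_left (pow_ne_zero _ hf)

/-- Division by the largest power of the second variable. -/
theorem dep_div_right (hD : Dep L) (f g : L) (hg : g ≠ 0) :
    ∃ P : Polynomial (Polynomial ℚ), P.coeff 0 ≠ 0 ∧ bi f g P = 0 := by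
  obtain ⟨P, hP, hP0⟩ := hD f g
  have hfin : FiniteMultiplicity (Polynomial.X : Polynomial (Polynomial ℚ)) P :=
    FiniteMultiplicity.of_not_isUnit Polynomial.not_isUnit_X hP
  obtain ⟨Q, hQ, hQ0⟩ := hfin.exists_eq_pow_mul_and_not_dvd
  refine ⟨Q, ?_, ?_⟩
  · intro h
    exact hQ0 (Polynomial.X_dvd_iff.2 h)
  · rw [hQ, bi_mul, bi_pow, bi_X] at hP0
    exact (mul_eq_zero.1 hP0).resolve_left (pow_ne_zero _ hg)

end Dep

/-- Transcendence degree one gives algebraic dependence. -/
theorem dep_of_trdeg {L : Type} [Field L] [Algebra ℚ L] (h : Algebra.trdeg ℚ L = 1) : Dep L := by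
  intro f g
  by_cases hf : Transcendental ℚ f
  · have hx1 : AlgebraicIndependent ℚ (fun _ : Unit => f) :=
      algebraicIndependent_unique_type_iff.2 hf
    have hg : IsAlgebraic (Algebra.adjoin ℚ (Set.range fun _ : Unit => f)) g := by
      by_contra hc
      have h2 := (hx1.option_iff_transcendental g).2 hc
      have h3 := h2.cardinalMk_le_trdeg
      rw [h] at h3
      rw [Cardinal.mk_option, Cardinal.mk_fintype, Fintype.card_unit, Nat.cast_one] at h3
      exact absurd h3 (by norm_num)
    obtain ⟨q, hq, hq0⟩ := hg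
    have hmem : ∀ p : Polynomial ℚ,
        Polynomial.aeval f p ∈ Algebra.adjoin ℚ (Set.range fun _ : Unit => f) := by
      intro p
      have h1 := Polynomial.aeval_mem_adjoin_singleton ℚ f (p := p)
      rw [Set.range_const]
      exact h1
    let φ : Polynomial ℚ →ₐ[ℚ] Algebra.adjoin ℚ (Set.range fun _ : Unit => f) :=
      (Polynomial.aeval f).codRestrict _ hmem
    have hφ : Function.Surjective φ := by
      rintro ⟨y, hy⟩
      have hy' : y ∈ Algebra.adjoin ℚ ({f} : Set L) := by
        rw [Set.range_const] at hy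
        exact hy
      rw [Algebra.adjoin_singleton_eq_range_aeval] at hy'
      obtain ⟨p, hp⟩ := hy'
      exact ⟨p, Subtype.ext hp⟩
    obtain ⟨P, rfl⟩ := Polynomial.map_surjective φ.toRingHom hφ q
    refine ⟨P, ?_, ?_⟩
    · rintro rfl
      exact hq (Polynomial.map_zero _)
    · rw [Polynomial.aeval_def, Polynomial.eval₂_map] at hq0
      exact hq0
  · have hf' : IsAlgebraic ℚ f := not_not.1 hf
    obtain ⟨p, hp, hp0⟩ := hf'
    refine ⟨Polynomial.C p, fun h1 => hp (Polynomial.C_eq_zero.1 h1), ?_⟩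
    rw [bi_C]
    exact hp0

section CurveField

variable {ι : Type} {L : Type} [Field L] [Algebra ℚ L] {x : ι → L} {p : ℕ → ι → ℚ}

theorem CurveField.dep (hC : CurveField x) : Dep L := dep_of_trdeg hC.trdeg

/-- **Zeros.** A polynomial which is not zero on the curve vanishes at finitely many points. -/
theorem fin_zeros [Finite ι] (hC : CurveField x) (hS : Specs x p) (g : MvPolynomial ι ℚ)
    (hg : MvPolynomial.aeval x g ≠ 0) : {n | MvPolynomial.eval (p n) g = 0}.Finite := by
  classical
  choose P hP0 hP using fun i => dep_div_left hC.dep (MvPolynomial.aeval x g) (x i) hg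
  have hroot : ∀ n, MvPolynomial.eval (p n) g = 0 → ∀ i,
      p n i ∈ ((P i).map (Polynomial.evalRingHom (0 : ℚ))).roots.toFinset := by
    intro n hn i
    have h1 : MvPolynomial.aeval x (bi g (MvPolynomial.X i) (P i)) = 0 := by
      rw [bi_map, MvPolynomial.aeval_X]
      exact hP i
    have h2 : MvPolynomial.aeval (p n) (bi g (MvPolynomial.X i) (P i)) = 0 := by
      rw [MvPolynomial.aeval_eq_eval]
      exact hS.spec _ h1 n
    rw [bi_map, MvPolynomial.aeval_X] at h2
    have h3 : MvPolynomial.aeval (p n) g = 0 := by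
      rw [MvPolynomial.aeval_eq_eval]
      exact hn
    rw [h3, bi_zero_left, Polynomial.coe_aeval_eq_eval] at h2
    rw [Multiset.mem_toFinset, Polynomial.mem_roots (hP0 i), Polynomial.IsRoot.def]
    exact h2
  refine Set.Finite.of_finite_image (f := p) (Set.Finite.subset (Set.Finite.pi' (fun i =>
    (((P i).map (Polynomial.evalRingHom (0 : ℚ))).roots.toFinset).finite_toSet)) ?_)
    hS.inj.injOn
  rintro _ ⟨n, hn, rfl⟩ i
  exact hroot n hn i

/-- A polynomial which is not zero on the curve does not vanish at almost all points. -/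
theorem ev_ne [Finite ι] (hC : CurveField x) (hS : Specs x p) (g : MvPolynomial ι ℚ)
    (hg : MvPolynomial.aeval x g ≠ 0) : ∀ᶠ n in atTop, MvPolynomial.eval (p n) g ≠ 0 := by
  rw [← Nat.cofinite_eq_atTop, Filter.eventually_cofinite]
  refine (fin_zeros hC hS g hg).subset ?_
  intro n hn
  exact not_not.1 hn

/-- The value of `y` at the point `p n`. -/
noncomputable def EV (hC : CurveField x) (p : ℕ → ι → ℚ) (n : ℕ) (y : L) : ℚ :=
  MvPolynomial.eval (p n) (hC.frac y).choose /
    MvPolynomial.eval (p n) (hC.frac y).choose_spec.choose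

variable [Finite ι] (hC : CurveField x) (hS : Specs x p)

include hS

/-- The value does not depend on the fraction. -/
theorem EV_eq (y : L) (g h : MvPolynomial ι ℚ) (hh : MvPolynomial.aeval x h ≠ 0)
    (hy : y * MvPolynomial.aeval x h = MvPolynomial.aeval x g) :
    ∀ᶠ n in atTop, EV hC p n y = MvPolynomial.eval (p n) g / MvPolynomial.eval (p n) h := by
  set g' := (hC.frac y).choose with hg'
  set h' := (hC.frac y).choose_spec.choose with hh'
  obtain ⟨h0, hfb⟩ : MvPolynomial.aeval x h' ≠ 0 ∧
      y = MvPolynomial.aeval x g' / MvPolynomial.aeval x h' :=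
    (hC.frac y).choose_spec.choose_spec
  have hcross : MvPolynomial.aeval x (g' * h - g * h') = 0 := by
    rw [map_sub, map_mul, map_mul, ← hy, hfb]
    field_simp
    ring
  filter_upwards [ev_ne hC hS h hh, ev_ne hC hS h' h0] with n h1 h2
  show MvPolynomial.eval (p n) g' / MvPolynomial.eval (p n) h' =
    MvPolynomial.eval (p n) g / MvPolynomial.eval (p n) h
  have h3 := hS.spec _ hcross n
  rw [map_sub, map_mul, map_mul, sub_eq_zero] at h3
  rw [div_eq_div_iff h2 h1, h3]

theorem EV_aeval (g : MvPolynomial ι ℚ) :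
    ∀ᶠ n in atTop, EV hC p n (MvPolynomial.aeval x g) = MvPolynomial.eval (p n) g := by
  filter_upwards [EV_eq hC hS (MvPolynomial.aeval x g) g 1 (by rw [map_one]; exact one_ne_zero)
    (by rw [map_one, mul_one])] with n h
  rw [h, map_one, div_one]

theorem EV_gen (i : ι) : ∀ᶠ n in atTop, EV hC p n (x i) = p n i := by
  filter_upwards [EV_aeval hC hS (MvPolynomial.X i)] with n h
  rw [MvPolynomial.aeval_X, MvPolynomial.eval_X] at h
  exact h

theorem EV_algebraMap (q : ℚ) : ∀ᶠ n in atTop, EV hC p n (algebraMap ℚ L q) = q := by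
  filter_upwards [EV_aeval hC hS (MvPolynomial.C q)] with n h
  rw [MvPolynomial.algHom_C, MvPolynomial.eval_C] at h
  exact h

theorem EV_add (f g : L) : ∀ᶠ n in atTop, EV hC p n (f + g) = EV hC p n f + EV hC p n g := by
  obtain ⟨a, b, hb, hab⟩ := hC.frac f
  obtain ⟨c, d, hd, hcd⟩ := hC.frac g
  have hbd : MvPolynomial.aeval x (b * d) ≠ 0 := by
    rw [map_mul]
    exact mul_ne_zero hb hd
  have h : (f + g) * MvPolynomial.aeval x (b * d) = MvPolynomial.aeval x (a * d + c * b) := by
    rw [hab, hcd, map_mul, map_add, map_mul, map_mul]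
    field_simp
  filter_upwards [EV_eq hC hS f a b hb (by rw [hab]; field_simp),
    EV_eq hC hS g c d hd (by rw [hcd]; field_simp),
    EV_eq hC hS (f + g) _ _ hbd h, ev_ne hC hS b hb, ev_ne hC hS d hd] with n h1 h2 h3 h4 h5
  rw [h1, h2, h3, map_add, map_mul, map_mul, map_mul]
  field_simp

theorem EV_mul (f g : L) : ∀ᶠ n in atTop, EV hC p n (f * g) = EV hC p n f * EV hC p n g := by
  obtain ⟨a, b, hb, hab⟩ := hC.frac f
  obtain ⟨c, d, hd, hcd⟩ := hC.frac g
  have hbd : MvPolynomial.aeval x (b * d) ≠ 0 := by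
    rw [map_mul]
    exact mul_ne_zero hb hd
  have h : (f * g) * MvPolynomial.aeval x (b * d) = MvPolynomial.aeval x (a * c) := by
    rw [hab, hcd, map_mul, map_mul]
    field_simp
  filter_upwards [EV_eq hC hS f a b hb (by rw [hab]; field_simp),
    EV_eq hC hS g c d hd (by rw [hcd]; field_simp),
    EV_eq hC hS (f * g) _ _ hbd h, ev_ne hC hS b hb, ev_ne hC hS d hd] with n h1 h2 h3 h4 h5
  rw [h1, h2, h3, map_mul, map_mul]
  field_simp

theorem EV_ne (f : L) (hf : f ≠ 0) : ∀ᶠ n in atTop, EV hC p n f ≠ 0 := by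
  filter_upwards [EV_mul hC hS f f⁻¹, EV_algebraMap hC hS 1] with n h1 h2
  intro h
  rw [mul_inv_cancel₀ hf, h, zero_mul] at h1
  rw [map_one, h1] at h2
  exact zero_ne_one h2

/-- The evaluations respect polynomial expressions, for almost all `n`. -/
theorem EV_mvPoly {σ : Type*} (f : σ → L) (q : MvPolynomial σ ℚ) :
    ∀ᶠ n in atTop, EV hC p n (MvPolynomial.aeval f q) =
      MvPolynomial.eval (fun i => EV hC p n (f i)) q := by
  induction q using MvPolynomial.induction_on with
  | C q =>
    filter_upwards [EV_algebraMap hC hS q] with n h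
    rw [MvPolynomial.algHom_C, MvPolynomial.eval_C, h]
  | add q r hp hq =>
    filter_upwards [hp, hq, EV_add hC hS (MvPolynomial.aeval f q) (MvPolynomial.aeval f r)]
      with n h1 h2 h3
    rw [map_add, map_add, h3, h1, h2]
  | mul_X q i hp =>
    filter_upwards [hp, EV_mul hC hS (MvPolynomial.aeval f q) (f i)] with n h1 h2
    rw [map_mul, map_mul, MvPolynomial.aeval_X, MvPolynomial.eval_X, h2, h1]

theorem EV_pow (f : L) (k : ℕ) : ∀ᶠ n in atTop, EV hC p n (f ^ k) = EV hC p n f ^ k := by
  induction k with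
  | zero =>
    filter_upwards [EV_algebraMap hC hS 1] with n h
    rw [pow_zero, pow_zero]
    rw [map_one] at h
    exact h
  | succ k ih =>
    filter_upwards [ih, EV_mul hC hS (f ^ k) f] with n h1 h2
    rw [pow_succ, pow_succ, h2, h1]

/-- One variable version. -/
theorem EV_poly (f : L) (q : Polynomial ℚ) :
    ∀ᶠ n in atTop, EV hC p n (Polynomial.aeval f q) = Polynomial.eval (EV hC p n f) q := by
  induction q using Polynomial.induction_on' with
  | add q r hp hq =>
    filter_upwards [hp, hq, EV_add hC hS (Polynomial.aeval f q) (Polynomial.aeval f r)]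
      with n h1 h2 h3
    rw [map_add, Polynomial.eval_add, h3, h1, h2]
  | monomial k q =>
    filter_upwards [EV_pow hC hS f k, EV_algebraMap hC hS q,
      EV_mul hC hS (algebraMap ℚ L q) (f ^ k)] with n h1 h2 h3
    rw [Polynomial.aeval_monomial, Polynomial.eval_monomial, h3, h2, h1]

/-- **The evaluation homomorphism.** -/
theorem exists_evHom : ∃ Φ : L →+* Hyperreal, EvHom x p Φ ∧
    ∀ y : L, Φ y = Hyperreal.ofSeq fun n => (EV hC p n y : ℝ) := by
  have hle : ∀ {P : ℕ → Prop}, (∀ᶠ n in atTop, P n) → ∀ᶠ n in (hyperfilter ℕ : Filter ℕ), P n :=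
    fun h => Nat.hyperfilter_le_atTop h
  have hcongr : ∀ f g : ℕ → ℝ, (∀ᶠ n in atTop, f n = g n) → Hyperreal.ofSeq f = Hyperreal.ofSeq g :=
    fun f g h => Filter.Germ.coe_eq.2 (hle h)
  refine ⟨{ toFun := fun y => Hyperreal.ofSeq fun n => (EV hC p n y : ℝ)
            map_one' := ?_
            map_mul' := ?_
            map_zero' := ?_
            map_add' := ?_ }, ?_, fun y => rfl⟩
  · refine (hcongr _ (fun _ => (1 : ℝ)) ?_)
    filter_upwards [EV_algebraMap hC hS 1] with n h
    rw [map_one] at h
    rw [h, Rat.cast_one]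
  · intro f g
    refine (hcongr _ (fun n => (EV hC p n f : ℝ) * (EV hC p n g : ℝ)) ?_)
    filter_upwards [EV_mul hC hS f g] with n h
    rw [h, Rat.cast_mul]
  · refine (hcongr _ (fun _ => (0 : ℝ)) ?_)
    filter_upwards [EV_algebraMap hC hS 0] with n h
    rw [map_zero] at h
    rw [h, Rat.cast_zero]
  · intro f g
    refine (hcongr _ (fun n => (EV hC p n f : ℝ) + (EV hC p n g : ℝ)) ?_)
    filter_upwards [EV_add hC hS f g] with n h
    rw [h, Rat.cast_add]
  · intro i
    refine hcongr _ _ ?_
    filter_upwards [EV_gen hC hS i] with n h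
    rw [h]

include hC in
/-- **The rationals are algebraically closed in `L`.** -/
theorem qac (α : L) (hα : IsAlgebraic ℚ α) : ∃ q : ℚ, algebraMap ℚ L q = α := by
  have hint : IsIntegral ℚ α := hα.isIntegral
  have hirr := minpoly.irreducible hint
  obtain ⟨n, h1, h2⟩ := ((EV_poly hC hS α (minpoly ℚ α)).and (EV_algebraMap hC hS 0)).exists
  rw [minpoly.aeval, ← map_zero (algebraMap ℚ L), h2] at h1
  have hroot : (minpoly ℚ α).IsRoot (EV hC p n α) := h1.symm
  have hdeg : (minpoly ℚ α).degree = 1 := Polynomial.degree_eq_one_of_irreducible_of_root hirr hroot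
  exact minpoly.mem_range_of_degree_eq_one ℚ α hdeg

end CurveField

/-- **Rank one.** -/
theorem rank_one {L : Type*} [Field L] [Algebra ℚ L] (hD : Dep L) (O : ValuationSubring L)
    (hO : ∀ q : ℚ, algebraMap ℚ L q ∈ O) (f g : L) (hf : O.valuation f < 1) (hg0 : g ≠ 0)
    (hg : O.valuation g < 1) : ∃ k : ℕ, O.valuation (f ^ k) ≤ O.valuation g := by
  have hq1 : ∀ q : ℚ, q ≠ 0 → O.valuation (algebraMap ℚ L q) = 1 := by
    intro q hq
    apply le_antisymm ((O.valuation_le_one_iff _).2 (hO q))
    have h1 : O.valuation (algebraMap ℚ L q⁻¹) ≤ 1 := (O.valuation_le_one_iff _).2 (hO q⁻¹)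
    have h2 : O.valuation (algebraMap ℚ L q) * O.valuation (algebraMap ℚ L q⁻¹) = 1 := by
      rw [← map_mul, ← map_mul, mul_inv_cancel₀ hq, map_one, map_one]
    rw [← h2]
    exact mul_le_of_le_one_right' h1
  have hpol : ∀ (y : L), O.valuation y ≤ 1 → ∀ p : Polynomial ℚ,
      O.valuation (Polynomial.aeval y p) ≤ 1 := by
    intro y hy p
    induction p using Polynomial.induction_on' with
    | add p q hp hq =>
      rw [map_add]
      exact (O.valuation.map_add _ _).trans (max_le hp hq)
    | monomial k q =>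
      rw [Polynomial.aeval_monomial, map_mul, map_pow]
      exact mul_le_one' ((O.valuation_le_one_iff _).2 (hO q)) (pow_le_one' hy k)
  have hbi : ∀ P : Polynomial (Polynomial ℚ), O.valuation (bi f g P) ≤ 1 := by
    intro P
    induction P using Polynomial.induction_on' with
    | add P Q hP hQ =>
      rw [bi_add]
      exact (O.valuation.map_add _ _).trans (max_le hP hQ)
    | monomial k p =>
      rw [← Polynomial.C_mul_X_pow_eq_monomial, bi_mul, bi_pow, bi_C, bi_X, map_mul, map_pow]
      exact mul_le_one' (hpol f hf.le p) (pow_le_one' hg.le k)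
  obtain ⟨P, hP0, hP⟩ := dep_div_right hD f g hg0
  have h1 : Polynomial.aeval f (P.coeff 0) = -(g * bi f g P.divX) := by
    have h2 := P.divX_mul_X_add
    rw [← h2, bi_add, bi_mul, bi_X, bi_C] at hP
    linear_combination hP
  have hfin : FiniteMultiplicity (Polynomial.X : Polynomial ℚ) (P.coeff 0) :=
    FiniteMultiplicity.of_not_isUnit Polynomial.not_isUnit_X hP0
  obtain ⟨r, hr, hr0⟩ := hfin.exists_eq_pow_mul_and_not_dvd
  have hr1 : r.coeff 0 ≠ 0 := fun h => hr0 (Polynomial.X_dvd_iff.2 h)
  have hru : O.valuation (Polynomial.aeval f r) = 1 := by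
    have h2 : Polynomial.aeval f r =
        algebraMap ℚ L (r.coeff 0) + Polynomial.aeval f r.divX * f := by
      conv_lhs => rw [← r.divX_mul_X_add]
      rw [map_add, map_mul, Polynomial.aeval_X, Polynomial.aeval_C]
      ring
    rw [h2, Valuation.map_add_eq_of_lt_left, hq1 _ hr1]
    rw [hq1 _ hr1, map_mul]
    exact lt_of_le_of_lt (mul_le_of_le_one_left' (hpol f hf.le _)) hf
  refine ⟨multiplicity (Polynomial.X : Polynomial ℚ) (P.coeff 0), ?_⟩
  have h3 : O.valuation (f ^ multiplicity (Polynomial.X : Polynomial ℚ) (P.coeff 0)) *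
      O.valuation (Polynomial.aeval f r) = O.valuation g * O.valuation (bi f g P.divX) := by
    rw [← map_mul, ← map_mul]
    have h4 : Polynomial.aeval f (P.coeff 0) =
        f ^ multiplicity (Polynomial.X : Polynomial ℚ) (P.coeff 0) * Polynomial.aeval f r := by
      conv_lhs => rw [hr]
      rw [map_mul, map_pow, Polynomial.aeval_X]
    rw [← h4, h1, Valuation.map_neg]
  rw [hru, mul_one] at h3
  rw [h3]
  exact mul_le_of_le_one_right' (hbi _)

end MP9f7b43.L
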