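import Pool.Agent.Lib.MP_9f7b43_nt.L.Zer

/-!
# MP_9f7b43_nt, part L, module Gen: the equation of the surface at the generic point
-/

set_option autoImplicit false

namespace MP9f7b43.L

open Polynomial

theorem Gen_faff_map {R S : Type*} [CommRing R] [CommRing S] (φ : R →+* S) (u v z : R) :
    φ (Faff u v z) = Faff (φ u) (φ v) (φ z) := by
  unfold Faff
  simp only [map_add, map_mul, map_sub, map_pow, map_ofNat]

theorem Gen_gen_map {R S : Type} [CommRing R] [CommRing S] (φ : R →+* S) (x : I9 → R) (j : Fin 3) :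
    (gen x j).map φ = gen (fun i => φ (x i)) j := by
  unfold gen
  rw [Polynomial.map_sum]
  refine Finset.sum_congr rfl fun l _ => ?_
  rw [Polynomial.map_mul, Polynomial.map_pow, Polynomial.map_C, Polynomial.map_X]

theorem Gen_comp (r : ℂ) (p : I9 → ℚ) (j : Fin 3) :
    comp r p j = (gen (fun i => ((p i : ℚ) : ℂ)) j).eval r := by
  unfold comp gen
  rw [Polynomial.eval_finsetSum]
  refine Finset.sum_congr rfl fun l _ => ?_
  rw [Polynomial.eval_mul, Polynomial.eval_pow, Polynomial.eval_C, Polynomial.eval_X]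

/-- the polynomial t ^ 3 - t - 1 -/
noncomputable def Gen_m (R : Type*) [CommRing R] : Polynomial R := X ^ 3 - X - 1

theorem Gen_m_map {R S : Type*} [CommRing R] [CommRing S] (φ : R →+* S) :
    (Gen_m R).map φ = Gen_m S := by
  unfold Gen_m
  rw [Polynomial.map_sub, Polynomial.map_sub, Polynomial.map_pow, Polynomial.map_X,
    Polynomial.map_one]

theorem Gen_m_monic (R : Type*) [CommRing R] [Nontrivial R] : (Gen_m R).Monic := by
  unfold Gen_m
  monicity!

theorem Gen_m_degree (R : Type*) [CommRing R] [Nontrivial R] : (Gen_m R).degree = 3 := by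
  unfold Gen_m
  compute_degree!

/-- A polynomial of degree less than three with three distinct roots is zero. -/
theorem Gen_three {Q : Polynomial ℂ} (hQ : Q.degree < 3) {r : Fin 3 → ℂ}
    (hr : Function.Injective r) (h : ∀ s, Q.eval (r s) = 0) : Q = 0 := by
  refine Polynomial.eq_zero_of_degree_lt_of_eval_finset_eq_zero (Finset.univ.image r) ?_ ?_
  · rw [Finset.card_image_of_injective _ hr, Finset.card_univ, Fintype.card_fin]
    exact hQ
  · intro x hx
    rw [Finset.mem_image] at hx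
    obtain ⟨s, -, rfl⟩ := hx
    exact h s

theorem tGen_of (hZ : ZerStmt) : GenStmt := by
  intro r hr hinj L _ _ x p hx hp hF
  -- the generic polynomial
  obtain ⟨P, hP⟩ : ∃ P : Polynomial (MvPolynomial I9 ℚ),
      P = Faff (gen (fun i => (MvPolynomial.X i : MvPolynomial I9 ℚ)) 0)
        (gen (fun i => (MvPolynomial.X i : MvPolynomial I9 ℚ)) 1)
        (gen (fun i => (MvPolynomial.X i : MvPolynomial I9 ℚ)) 2) := ⟨_, rfl⟩
  have hmon := Gen_m_monic (MvPolynomial I9 ℚ)
  have hdiv := Polynomial.modByMonic_add_div P (Gen_m (MvPolynomial I9 ℚ))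
  obtain ⟨R, hR⟩ : ∃ R, R = P %ₘ Gen_m (MvPolynomial I9 ℚ) := ⟨_, rfl⟩
  rw [← hR] at hdiv
  have hRdeg : R.degree < 3 := by
    rw [hR, ← Gen_m_degree (MvPolynomial I9 ℚ)]
    exact Polynomial.degree_modByMonic_lt P hmon
  -- values of the coefficients
  have h1 : ∀ n k, MvPolynomial.eval (p n) (R.coeff k) = 0 := by
    intro n k
    obtain ⟨φ, hφ⟩ : ∃ φ : MvPolynomial I9 ℚ →+* ℂ,
        φ = (algebraMap ℚ ℂ).comp (MvPolynomial.eval (p n)) := ⟨_, rfl⟩
    have hφX : ∀ i, φ (MvPolynomial.X i) = ((p n i : ℚ) : ℂ) := by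
      intro i
      rw [hφ, RingHom.comp_apply, MvPolynomial.eval_X, eq_ratCast]
    have hPm : P.map φ = Faff (gen (fun i => ((p n i : ℚ) : ℂ)) 0)
        (gen (fun i => ((p n i : ℚ) : ℂ)) 1) (gen (fun i => ((p n i : ℚ) : ℂ)) 2) := by
      rw [hP, ← Polynomial.coe_mapRingHom, Gen_faff_map, Polynomial.coe_mapRingHom, Gen_gen_map,
        Gen_gen_map, Gen_gen_map]
      simp only [hφX]
    have hRm : R.map φ = 0 := by
      refine Gen_three ((Polynomial.degree_map_le).trans_lt hRdeg) hinj fun s => ?_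
      have h2 : (P.map φ).eval (r s) = 0 := by
        rw [hPm, ← Polynomial.coe_evalRingHom, Gen_faff_map, Polynomial.coe_evalRingHom,
          ← Gen_comp, ← Gen_comp, ← Gen_comp]
        exact hF n s
      rw [← hdiv, Polynomial.map_add, Polynomial.map_mul, Gen_m_map, Polynomial.eval_add,
        Polynomial.eval_mul] at h2
      have h3 : (Gen_m ℂ).eval (r s) = 0 := by
        unfold Gen_m
        rw [Polynomial.eval_sub, Polynomial.eval_sub, Polynomial.eval_pow, Polynomial.eval_X,
          Polynomial.eval_one, hr s]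
        ring
      rwa [h3, zero_mul, add_zero] at h2
    have h4 : φ (R.coeff k) = 0 := by
      rw [← Polynomial.coeff_map, hRm, Polynomial.coeff_zero]
    rw [hφ, RingHom.comp_apply] at h4
    exact (algebraMap ℚ ℂ).injective (h4.trans (map_zero _).symm)
  have h5 : ∀ k, MvPolynomial.aeval x (R.coeff k) = 0 := by
    intro k
    by_contra hk
    have h6 := hZ I9 L x p hx hp (R.coeff k) hk
    have h7 : {n | MvPolynomial.eval (p n) (R.coeff k) = 0} = Set.univ :=
      Set.eq_univ_of_forall fun n => h1 n k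
    rw [h7] at h6
    exact Set.infinite_univ h6
  -- the conclusion
  obtain ⟨ψ, hψ⟩ : ∃ ψ : MvPolynomial I9 ℚ →+* L,
      ψ = (MvPolynomial.aeval x : MvPolynomial I9 ℚ →ₐ[ℚ] L).toRingHom := ⟨_, rfl⟩
  have hψa : ∀ g, ψ g = MvPolynomial.aeval x g := fun g => by rw [hψ]; rfl
  have hψX : ∀ i, ψ (MvPolynomial.X i) = x i := by
    intro i
    rw [hψa, MvPolynomial.aeval_X]
  have hPm : P.map ψ = Faff (gen x 0) (gen x 1) (gen x 2) := by
    rw [hP, ← Polynomial.coe_mapRingHom, Gen_faff_map, Polynomial.coe_mapRingHom, Gen_gen_map,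
      Gen_gen_map, Gen_gen_map]
    simp only [hψX]
  have hRm : R.map ψ = 0 := by
    ext k
    rw [Polynomial.coeff_map, hψa, h5 k, Polynomial.coeff_zero]
  have h8 : Gen_m L ∣ P.map ψ := by
    refine ⟨(P /ₘ Gen_m (MvPolynomial I9 ℚ)).map ψ, ?_⟩
    rw [← hdiv, Polynomial.map_add, Polynomial.map_mul, Gen_m_map, hRm, zero_add]
    rw [hdiv]
  rw [hPm] at h8
  exact h8

theorem tGen : GenStmt := tGen_of tZer

end MP9f7b43.L
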