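import Mathlib

/-! # Infinite and infinitesimal hyperreal numbers given by sequences -/

namespace MP9f7b43.L

open Filter ArchimedeanClass Hyperreal

theorem abs_ofSeq (f : ℕ → ℝ) : |ofSeq f| = ofSeq fun n => |f n| := by
  rcases le_total 0 (ofSeq f) with h | h
  · rw [abs_of_nonneg h]
    have h' : ofSeq (fun _ => (0 : ℝ)) ≤ ofSeq f := h
    rw [ofSeq_le_ofSeq] at h'
    apply le_antisymm
    · exact ofSeq_le_ofSeq.mpr (h'.mono fun n hn => (abs_of_nonneg hn).ge)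
    · exact ofSeq_le_ofSeq.mpr (h'.mono fun n hn => (abs_of_nonneg hn).le)
  · rw [abs_of_nonpos h]
    have h' : ofSeq f ≤ ofSeq (fun _ => (0 : ℝ)) := h
    rw [ofSeq_le_ofSeq] at h'
    have hn : -ofSeq f = ofSeq fun n => -f n := rfl
    rw [hn]
    apply le_antisymm
    · exact ofSeq_le_ofSeq.mpr (h'.mono fun n hn => (abs_of_nonpos hn).ge)
    · exact ofSeq_le_ofSeq.mpr (h'.mono fun n hn => (abs_of_nonpos hn).le)

theorem mk_nonneg_iff (f : ℕ → ℝ) :
    0 ≤ ArchimedeanClass.mk (ofSeq f) ↔ ∃ C : ℝ, ∀ᶠ n in hyperfilter ℕ, |f n| ≤ C := by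
  constructor
  · intro h
    have h1 : 0 ≤ ArchimedeanClass.mk |ofSeq f| := by rwa [ArchimedeanClass.mk_abs]
    obtain ⟨N, hN⟩ := exists_nat_ge_of_mk_nonneg h1
    rw [abs_ofSeq] at hN
    have h2 : ofSeq (fun n => |f n|) ≤ ofSeq (fun _ => (N : ℝ)) := by
      exact hN
    exact ⟨N, ofSeq_le_ofSeq.mp h2⟩
  · rintro ⟨C, hC⟩
    have h1 : ofSeq f ≤ ofSeq fun _ => C :=
      ofSeq_le_ofSeq.mpr (hC.mono fun n hn => (abs_le.mp hn).2)
    have h2 : ofSeq (fun _ => -C) ≤ ofSeq f :=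
      ofSeq_le_ofSeq.mpr (hC.mono fun n hn => (abs_le.mp hn).1)
    exact mk_nonneg_of_le_of_le_of_archimedean coeRingHom (r := -C) (s := C) h2 h1

theorem mk_pos_iff (f : ℕ → ℝ) :
    0 < ArchimedeanClass.mk (ofSeq f) ↔ ∀ c : ℝ, 0 < c → ∀ᶠ n in hyperfilter ℕ, |f n| ≤ c := by
  constructor
  · intro h c hc
    have h1 : 0 < ArchimedeanClass.mk |ofSeq f| := by rwa [ArchimedeanClass.mk_abs]
    have h2 := lt_of_pos_of_archimedean coeRingHom h1 hc
    rw [abs_ofSeq] at h2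
    have h3 : ofSeq (fun n => |f n|) < ofSeq fun _ => c := h2
    exact (ofSeq_lt_ofSeq.mp h3).mono fun n hn => hn.le
  · intro h
    apply archimedeanClassMk_pos_of_tendsto
    rw [tendsto_ofSeq, Metric.tendsto_nhds]
    intro e he
    filter_upwards [h (e / 2) (by linarith)] with n hn
    rw [Real.dist_eq, sub_zero]
    linarith

end MP9f7b43.L
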