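import Pool.Agent.Lib.MP_9f7b43_nt.L.Gro
import Pool.Agent.Lib.MP_9f7b43_nt.L.Seq

namespace MP9f7b43.L

open Filter ArchimedeanClass

theorem tHth (hR : RnkStmt) : HthStmt := by
  intro r p N δ hc L _ _ x htr Φ hΦ O hQ hO hOn
  obtain ⟨C, hC, g1, g2, g3, -, g5⟩ := tGro r p N δ hc
  have hCp : 0 < C := by linarith
  have hle : (hyperfilter ℕ : Filter ℕ) ≤ atTop := Nat.hyperfilter_le_atTop
  set S : ℕ → ℝ := fun n => ∑ l, (|(p n (0, l) : ℝ)| + |(p n (1, l) : ℝ)|) with hS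
  set Z : ℕ → ℝ := fun n => ∑ l, |(p n (2, l) : ℝ)| with hZ
  have hSn : ∀ n, 0 ≤ S n := fun n =>
    Finset.sum_nonneg fun l _ => add_nonneg (abs_nonneg _) (abs_nonneg _)
  -- the maximal coordinates
  set T : Finset I9 := Finset.univ.filter fun i => i.1 = 0 ∨ i.1 = 1 with hT
  obtain ⟨i0, hi0T, hmax⟩ := T.exists_max_image
    (fun i => Hyperreal.ofSeq fun n => |(p n i : ℝ)|) ⟨(0, 0), by simp [hT]⟩
  have hmax' : ∀ i ∈ T, ∀ᶠ n in (hyperfilter ℕ : Filter ℕ), |(p n i : ℝ)| ≤ |(p n i0 : ℝ)| :=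
    fun i hi => Hyperreal.ofSeq_le_ofSeq.mp (hmax i hi)
  obtain ⟨l0, -, hmaxl⟩ := (Finset.univ : Finset (Fin 3)).exists_max_image
    (fun l => Hyperreal.ofSeq fun n => |(p n (2, l) : ℝ)|) ⟨0, Finset.mem_univ _⟩
  have hmaxl' : ∀ l : Fin 3, ∀ᶠ n in (hyperfilter ℕ : Filter ℕ),
      |(p n (2, l) : ℝ)| ≤ |(p n (2, l0) : ℝ)| :=
    fun l => Hyperreal.ofSeq_le_ofSeq.mp (hmaxl l (Finset.mem_univ _))
  have hT0 : ∀ l : Fin 3, ((0, l) : I9) ∈ T := fun l => by simp [hT]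
  have hT1 : ∀ l : Fin 3, ((1, l) : I9) ∈ T := fun l => by simp [hT]
  -- all coordinates at the same time
  have hS6 : ∀ᶠ n in (hyperfilter ℕ : Filter ℕ), S n ≤ 6 * |(p n i0 : ℝ)| := by
    have h0 : ∀ᶠ n in (hyperfilter ℕ : Filter ℕ), ∀ l : Fin 3,
        |(p n (0, l) : ℝ)| ≤ |(p n i0 : ℝ)| := eventually_all.mpr fun l => hmax' _ (hT0 l)
    have h1 : ∀ᶠ n in (hyperfilter ℕ : Filter ℕ), ∀ l : Fin 3,
        |(p n (1, l) : ℝ)| ≤ |(p n i0 : ℝ)| := eventually_all.mpr fun l => hmax' _ (hT1 l)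
    filter_upwards [h0, h1] with n hn0 hn1
    calc S n ≤ ∑ _l : Fin 3, (|(p n i0 : ℝ)| + |(p n i0 : ℝ)|) :=
          Finset.sum_le_sum fun l _ => add_le_add (hn0 l) (hn1 l)
      _ = 6 * |(p n i0 : ℝ)| := by
          rw [Finset.sum_const, Finset.card_univ, Fintype.card_fin, nsmul_eq_mul]
          push_cast
          ring
  have haS : ∀ n, |(p n i0 : ℝ)| ≤ S n := by
    intro n
    have h0 : ∀ l : Fin 3, |(p n (0, l) : ℝ)| ≤ S n := by
      intro l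
      calc |(p n (0, l) : ℝ)| ≤ |(p n (0, l) : ℝ)| + |(p n (1, l) : ℝ)| :=
            le_add_of_nonneg_right (abs_nonneg _)
        _ ≤ S n := Finset.single_le_sum
            (f := fun l : Fin 3 => |(p n (0, l) : ℝ)| + |(p n (1, l) : ℝ)|)
            (fun l _ => add_nonneg (abs_nonneg _) (abs_nonneg _)) (Finset.mem_univ l)
    have h1 : ∀ l : Fin 3, |(p n (1, l) : ℝ)| ≤ S n := by
      intro l
      calc |(p n (1, l) : ℝ)| ≤ |(p n (0, l) : ℝ)| + |(p n (1, l) : ℝ)| :=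
            le_add_of_nonneg_left (abs_nonneg _)
        _ ≤ S n := Finset.single_le_sum
            (f := fun l : Fin 3 => |(p n (0, l) : ℝ)| + |(p n (1, l) : ℝ)|)
            (fun l _ => add_nonneg (abs_nonneg _) (abs_nonneg _)) (Finset.mem_univ l)
    have hi := (Finset.mem_filter.mp hi0T).2
    obtain ⟨j, l⟩ := i0
    rcases hi with hi | hi
    · have hj : j = 0 := hi
      subst hj
      exact h0 l
    · have hj : j = 1 := hi
      subst hj
      exact h1 l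
  have hbig : ∀ᶠ n in (hyperfilter ℕ : Filter ℕ), 1 ≤ 6 * C * δ n * |(p n i0 : ℝ)| := by
    filter_upwards [hS6, hle g3] with n h6 hg
    have hδ := hc.δpos n
    calc 1 ≤ C * δ n * S n := hg
      _ ≤ C * δ n * (6 * |(p n i0 : ℝ)|) := by gcongr
      _ = 6 * C * δ n * |(p n i0 : ℝ)| := by ring
  have hpos : ∀ᶠ n in (hyperfilter ℕ : Filter ℕ), 0 < |(p n i0 : ℝ)| := by
    filter_upwards [hbig] with n hn
    by_contra hcon
    have h0 : |(p n i0 : ℝ)| = 0 := le_antisymm (not_lt.mp hcon) (abs_nonneg _)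
    rw [h0, mul_zero] at hn
    linarith
  have hx0 : x i0 ≠ 0 := by
    intro h
    have h1 := hΦ i0
    rw [h, map_zero] at h1
    have h2 : Hyperreal.ofSeq (fun n => (p n i0 : ℝ)) ≤ Hyperreal.ofSeq fun _ => (0 : ℝ) :=
      h1.symm.le
    have h3 : Hyperreal.ofSeq (fun _ => (0 : ℝ)) ≤ Hyperreal.ofSeq fun n => (p n i0 : ℝ) :=
      h1.le
    have h4 := (Hyperreal.ofSeq_le_ofSeq.mp h2).and
      ((Hyperreal.ofSeq_le_ofSeq.mp h3).and hpos)
    obtain ⟨n, hn1, hn2, hn3⟩ := h4.exists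
    have h5 : (p n i0 : ℝ) = 0 := le_antisymm hn1 hn2
    rw [h5, abs_zero] at hn3
    exact lt_irrefl _ hn3
  set s : L := (x i0)⁻¹ with hs
  have hΦs : Φ s = Hyperreal.ofSeq fun n => (p n i0 : ℝ)⁻¹ := by
    rw [hs, map_inv₀, hΦ i0]
    rfl
  have hs1 : s ∈ O.nonunits := by
    rw [hOn, hΦs, mk_pos_iff]
    intro c hc0
    have hlim : ∀ᶠ n in (hyperfilter ℕ : Filter ℕ), δ n < c / (6 * C) :=
      hle (hc.lim.eventually_lt_const (by positivity))
    filter_upwards [hbig, hpos, hlim] with n h1 h2 h3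
    have hδ := hc.δpos n
    rw [abs_inv]
    have h4 : 6 * C * δ n ≤ c := by
      have : 6 * C * δ n ≤ 6 * C * (c / (6 * C)) := by gcongr
      rwa [mul_div_cancel₀ c (by positivity)] at this
    calc |(p n i0 : ℝ)|⁻¹ = |(p n i0 : ℝ)|⁻¹ * 1 := (mul_one _).symm
      _ ≤ |(p n i0 : ℝ)|⁻¹ * (6 * C * δ n * |(p n i0 : ℝ)|) := by gcongr
      _ = 6 * C * δ n := by field_simp
      _ ≤ c := h4
  have hsx : ∀ i ∈ T, s * x i ∈ O := by
    intro i hi
    rw [hO, map_mul, hΦs, hΦ i]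
    change 0 ≤ ArchimedeanClass.mk (Hyperreal.ofSeq fun n => (p n i0 : ℝ)⁻¹ * (p n i : ℝ))
    rw [mk_nonneg_iff]
    refine ⟨1, ?_⟩
    filter_upwards [hmax' i hi, hpos] with n h1 h2
    rw [abs_mul, abs_inv]
    calc |(p n i0 : ℝ)|⁻¹ * |(p n i : ℝ)| ≤ |(p n i0 : ℝ)|⁻¹ * |(p n i0 : ℝ)| := by gcongr
      _ = 1 := inv_mul_cancel₀ h2.ne'
  have hfm : ∀ l : Fin 3, Φ (s ^ 2 * x (2, l))
      = Hyperreal.ofSeq fun n => (p n i0 : ℝ)⁻¹ ^ 2 * (p n (2, l) : ℝ) := by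
    intro l
    rw [map_mul, map_pow, hΦs, hΦ (2, l)]
    rfl
  have hs2 : ∀ l : Fin 3, s ^ 2 * x (2, l) ∈ O := by
    intro l
    rw [hO, hfm l, mk_nonneg_iff]
    refine ⟨36 * C, ?_⟩
    filter_upwards [hS6, hpos, hle g1] with n h6 h2 h3
    rw [abs_mul, abs_pow, abs_inv]
    have h4 : |(p n (2, l) : ℝ)| ≤ C * (6 * |(p n i0 : ℝ)|) ^ 2 := by
      refine le_trans (h3 l) ?_
      have := hSn n
      gcongr
    calc |(p n i0 : ℝ)|⁻¹ ^ 2 * |(p n (2, l) : ℝ)|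
        ≤ |(p n i0 : ℝ)|⁻¹ ^ 2 * (C * (6 * |(p n i0 : ℝ)|) ^ 2) := by gcongr
      _ = 36 * C := by
          field_simp
          ring
  refine ⟨s, inv_ne_zero hx0, hs1, fun l => hsx _ (hT0 l), fun l => hsx _ (hT1 l), hs2, ?_, ?_⟩
  · -- `s * x i0 = 1`
    have h1 : s * x i0 = 1 := inv_mul_cancel₀ hx0
    have h1n : (1 : L) ∉ O.nonunits := by
      rw [hOn, map_one, ArchimedeanClass.mk_one]
      exact lt_irrefl _
    have hi := (Finset.mem_filter.mp hi0T).2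
    obtain ⟨j, l⟩ := i0
    rcases hi with hi | hi
    · have hj : j = 0 := hi
      subst hj
      exact ⟨l, Or.inl (by rw [h1]; exact h1n)⟩
    · have hj : j = 1 := hi
      subst hj
      exact ⟨l, Or.inr (by rw [h1]; exact h1n)⟩
  · by_contra hcon
    push Not at hcon
    have hf := hcon l0
    have hs0 : s ≠ 0 := inv_ne_zero hx0
    obtain ⟨k, hk⟩ := hR L htr O hQ (s ^ 2 * x (2, l0)) s hf hs1 hs0
    have hk' : (s ^ 2 * x (2, l0)) ^ (k + 1) / s ∈ O := by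
      have h1 : (s ^ 2 * x (2, l0)) ^ (k + 1) / s
          = (s ^ 2 * x (2, l0)) * ((s ^ 2 * x (2, l0)) ^ k / s) := by
        rw [pow_succ]; ring
      rw [h1]
      exact O.mul_mem _ _ (hs2 l0) hk
    rw [hO, map_div₀, map_pow, hfm l0, hΦs] at hk'
    change 0 ≤ ArchimedeanClass.mk (Hyperreal.ofSeq fun n =>
      ((p n i0 : ℝ)⁻¹ ^ 2 * (p n (2, l0) : ℝ)) ^ (k + 1) / (p n i0 : ℝ)⁻¹) at hk'
    rw [mk_nonneg_iff] at hk'
    obtain ⟨D, hD⟩ := hk'
    set K : ℕ := k + 1 with hK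
    have hKpos : (1 : ℝ) ≤ K := by
      rw [hK]; push_cast; linarith [Nat.cast_nonneg (α := ℝ) k]
    set D' : ℝ := max D 1 with hD'
    have hD'1 : 1 ≤ D' := le_max_right _ _
    have hev := ev_rpow hc.δpos hc.lim (D' * (3 * C) ^ K + 1) (2 * K - 1 / 2) (2 * K)
      (by positivity) (by linarith)
    have hZ3 : ∀ᶠ n in (hyperfilter ℕ : Filter ℕ), Z n ≤ 3 * |(p n (2, l0) : ℝ)| := by
      have h0 : ∀ᶠ n in (hyperfilter ℕ : Filter ℕ), ∀ l : Fin 3,
          |(p n (2, l) : ℝ)| ≤ |(p n (2, l0) : ℝ)| := eventually_all.mpr fun l => hmaxl' l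
      filter_upwards [h0] with n hn0
      calc Z n ≤ ∑ _l : Fin 3, |(p n (2, l0) : ℝ)| := Finset.sum_le_sum fun l _ => hn0 l
        _ = 3 * |(p n (2, l0) : ℝ)| := by
            rw [Finset.sum_const, Finset.card_univ, Fintype.card_fin, nsmul_eq_mul]
            push_cast
            ring
    have hδ1 : ∀ᶠ n in (hyperfilter ℕ : Filter ℕ), δ n < 1 :=
      hle (hc.lim.eventually_lt_const (by norm_num))
    have q2 := g2.filter_mono hle
    have q5 := (g5 (1 / (4 * K)) (by positivity)).filter_mono hle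
    have qe := hev.filter_mono hle
    have hall := hD.and (hpos.and (hZ3.and (q2.and (q5.and (qe.and hδ1)))))
    obtain ⟨n, h1, h2, h3, h4, h5, h6, h7⟩ := hall.exists
    have hδ := hc.δpos n
    set a : ℝ := |(p n i0 : ℝ)| with ha
    set b : ℝ := |(p n (2, l0) : ℝ)| with hb
    have hb0 : 0 ≤ b := abs_nonneg _
    -- `b ^ K * a ≤ D' * a ^ (2 K)`
    have e1 : b ^ K * a ≤ D' * a ^ (2 * K) := by
      have h8 : (a⁻¹ ^ 2 * b) ^ K / a⁻¹ ≤ D' := by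
        have h9 : |((p n i0 : ℝ)⁻¹ ^ 2 * (p n (2, l0) : ℝ)) ^ K / (p n i0 : ℝ)⁻¹|
            = (a⁻¹ ^ 2 * b) ^ K / a⁻¹ := by
          rw [abs_div, abs_pow, abs_mul, abs_pow, abs_inv]
        rw [← h9]
        exact le_trans h1 (le_max_left _ _)
      have h10 : (a⁻¹ ^ 2 * b) ^ K / a⁻¹ * a ^ (2 * K) = b ^ K * a := by
        rw [mul_pow, ← pow_mul, inv_pow]
        field_simp
      rw [← h10]
      gcongr
    have e2 : b ^ K ≤ D' * a ^ (2 * K - 1) := by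
      have h11 : a ^ (2 * K) = a ^ (2 * K - 1) * a := by
        rw [← pow_succ]
        congr 1
      rw [h11, ← mul_assoc] at e1
      exact le_of_mul_le_mul_right e1 h2
    -- lower bound of `b`
    have e3 : δ n ^ (-2 : ℝ) ≤ 3 * C * b := by
      have h12 : 1 ≤ δ n ^ 2 * (3 * C * b) := by
        calc 1 ≤ C * δ n ^ 2 * Z n := h4
          _ ≤ C * δ n ^ 2 * (3 * b) := by gcongr
          _ = δ n ^ 2 * (3 * C * b) := by ring
      have h13 : δ n ^ (-2 : ℝ) = (δ n ^ 2)⁻¹ := by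
        rw [Real.rpow_neg hδ.le]
        norm_num
      rw [h13]
      calc (δ n ^ 2)⁻¹ = (δ n ^ 2)⁻¹ * 1 := (mul_one _).symm
        _ ≤ (δ n ^ 2)⁻¹ * (δ n ^ 2 * (3 * C * b)) := by gcongr
        _ = 3 * C * b := by rw [← mul_assoc, inv_mul_cancel₀ (by positivity), one_mul]
    have e4 : δ n ^ (-(2 * (K : ℝ))) ≤ (3 * C) ^ K * b ^ K := by
      have h14 : δ n ^ (-(2 * (K : ℝ))) = (δ n ^ (-2 : ℝ)) ^ K := by
        rw [← Real.rpow_natCast, ← Real.rpow_mul hδ.le]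
        congr 1
        ring
      rw [h14, ← mul_pow]
      have h0 : 0 ≤ δ n ^ (-2 : ℝ) := (Real.rpow_pos_of_pos hδ _).le
      gcongr
    -- upper bound of `a`
    have e5 : a ^ (2 * K - 1) ≤ δ n ^ (-(2 * (K : ℝ) - 1 / 2)) := by
      have h15 : a ≤ δ n ^ (-1 - 1 / (4 * (K : ℝ))) := le_trans (haS n) h5
      calc a ^ (2 * K - 1) ≤ (δ n ^ (-1 - 1 / (4 * (K : ℝ)))) ^ (2 * K - 1) := by gcongr
        _ = δ n ^ ((-1 - 1 / (4 * (K : ℝ))) * ((2 * K - 1 : ℕ) : ℝ)) := by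
            rw [← Real.rpow_natCast, ← Real.rpow_mul hδ.le]
        _ ≤ δ n ^ (-(2 * (K : ℝ) - 1 / 2)) := by
            apply Real.rpow_le_rpow_of_exponent_ge hδ h7.le
            have h16 : ((2 * K - 1 : ℕ) : ℝ) = 2 * (K : ℝ) - 1 := by
              rw [Nat.cast_sub (by omega)]
              push_cast
              ring
            rw [h16]
            have h17 : 1 / (4 * (K : ℝ)) * (2 * (K : ℝ) - 1) ≤ 1 / 2 := by
              rw [div_mul_eq_mul_div, one_mul, div_le_div_iff₀ (by positivity) (by norm_num)]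
              linarith
            nlinarith
    have hq : 0 < δ n ^ (-(2 * (K : ℝ) - 1 / 2)) := Real.rpow_pos_of_pos hδ _
    have e6 : δ n ^ (-(2 * (K : ℝ))) ≤ (D' * (3 * C) ^ K) * δ n ^ (-(2 * (K : ℝ) - 1 / 2)) := by
      calc δ n ^ (-(2 * (K : ℝ))) ≤ (3 * C) ^ K * b ^ K := e4
        _ ≤ (3 * C) ^ K * (D' * a ^ (2 * K - 1)) := by gcongr
        _ ≤ (3 * C) ^ K * (D' * δ n ^ (-(2 * (K : ℝ) - 1 / 2))) := by gcongr
        _ = (D' * (3 * C) ^ K) * δ n ^ (-(2 * (K : ℝ) - 1 / 2)) := by ring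
    nlinarith

end MP9f7b43.L
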