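import Pool.Agent.Lib.MP_9f7b43_nt.L.Gro

namespace MP9f7b43.L

open Filter

theorem tNea : NeaStmt := by
  intro r p N δ hc
  obtain ⟨C, hC, -, h2, -, h4, -⟩ := tGro r p N δ hc
  have hCp : 0 < C := by linarith
  have hM : ∀ n, ∑ l, |(p n (2, l) : ℝ)| ≤ ∑ i, |(p n i : ℝ)| := by
    intro n
    rw [Fintype.sum_prod_type]
    exact Finset.single_le_sum (f := fun j : Fin 3 => ∑ l : Fin 3, |(p n (j, l) : ℝ)|)
      (fun j _ => Finset.sum_nonneg fun l _ => abs_nonneg _) (Finset.mem_univ 2)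
  have hsmall : ∀ᶠ n in atTop, δ n < 1 / C := hc.lim.eventually_lt_const (by positivity)
  have hbig : ∀ᶠ n in atTop, (δ n)⁻¹ ≤ ∑ i, |(p n i : ℝ)| := by
    filter_upwards [h2, hsmall] with n hn hn2
    refine le_trans ?_ (hM n)
    have hδ := hc.δpos n
    have hZ0 : 0 ≤ ∑ l, |(p n (2, l) : ℝ)| := Finset.sum_nonneg fun l _ => abs_nonneg _
    have h5 : C * δ n ≤ 1 := by
      have : C * δ n ≤ C * (1 / C) := by gcongr
      rwa [mul_one_div_cancel hCp.ne'] at this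
    have h6 : 1 ≤ δ n * ∑ l, |(p n (2, l) : ℝ)| := by
      calc 1 ≤ C * δ n ^ 2 * ∑ l, |(p n (2, l) : ℝ)| := hn
        _ = (C * δ n) * (δ n * ∑ l, |(p n (2, l) : ℝ)|) := by ring
        _ ≤ 1 * (δ n * ∑ l, |(p n (2, l) : ℝ)|) := by gcongr
        _ = δ n * ∑ l, |(p n (2, l) : ℝ)| := one_mul _
    calc (δ n)⁻¹ = (δ n)⁻¹ * 1 := (mul_one _).symm
      _ ≤ (δ n)⁻¹ * (δ n * ∑ l, |(p n (2, l) : ℝ)|) := by gcongr
      _ = ∑ l, |(p n (2, l) : ℝ)| := by rw [← mul_assoc, inv_mul_cancel₀ hδ.ne', one_mul]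
  refine ⟨?_, ?_⟩
  · have hinv : Tendsto (fun n => (δ n)⁻¹) atTop atTop := by
      apply Filter.Tendsto.inv_tendsto_nhdsGT_zero
      rw [tendsto_nhdsWithin_iff]
      exact ⟨hc.lim, Eventually.of_forall fun n => hc.δpos n⟩
    exact tendsto_atTop_mono' _ hbig hinv
  · intro ε hε
    filter_upwards [h4 ε hε, hbig] with n hn hn2
    have hδ := hc.δpos n
    refine le_trans hn ?_
    rw [Real.rpow_neg hδ.le, ← Real.inv_rpow hδ.le]
    exact Real.rpow_le_rpow (inv_nonneg.mpr hδ.le) hn2 hε.le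

end MP9f7b43.L
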