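import Pool.Agent.Lib.MP_9f7b43_nt.L.Spec

/-!
# MP_9f7b43_nt, part L, module Plc: the place of an evaluation homomorphism
-/

set_option autoImplicit false

namespace MP9f7b43.L

open ArchimedeanClass

/-- the valuation ring of the elements with finite value -/
noncomputable def plc {L : Type} [Field L] (Φ : L →+* Hyperreal) : ValuationSubring L where
  carrier := {y | 0 ≤ ArchimedeanClass.mk (Φ y)}
  mul_mem' := by
    intro a b ha hb
    change 0 ≤ ArchimedeanClass.mk (Φ (a * b))
    rw [map_mul, ArchimedeanClass.mk_mul]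
    exact add_nonneg ha hb
  one_mem' := by
    change 0 ≤ ArchimedeanClass.mk (Φ 1)
    rw [map_one, ArchimedeanClass.mk_one]
  add_mem' := by
    intro a b ha hb
    change 0 ≤ ArchimedeanClass.mk (Φ (a + b))
    rw [map_add]
    exact (le_min ha hb).trans (ArchimedeanClass.min_le_mk_add _ _)
  zero_mem' := by
    change 0 ≤ ArchimedeanClass.mk (Φ 0)
    rw [map_zero, ArchimedeanClass.mk_zero]
    exact le_top
  neg_mem' := by
    intro a ha
    change 0 ≤ ArchimedeanClass.mk (Φ (-a))
    rw [map_neg, ArchimedeanClass.mk_neg]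
    exact ha
  mem_or_inv_mem' := by
    intro a
    change 0 ≤ ArchimedeanClass.mk (Φ a) ∨ 0 ≤ ArchimedeanClass.mk (Φ a⁻¹)
    rw [map_inv₀, ArchimedeanClass.mk_inv]
    rcases le_or_gt 0 (ArchimedeanClass.mk (Φ a)) with h | h
    · exact Or.inl h
    · exact Or.inr (LinearOrderedAddCommGroupWithTop.neg_pos.2 (Or.inl h)).le

theorem mem_plc {L : Type} [Field L] (Φ : L →+* Hyperreal) (y : L) :
    y ∈ plc Φ ↔ 0 ≤ ArchimedeanClass.mk (Φ y) := Iff.rfl

theorem mem_plc_nonunits {L : Type} [Field L] (Φ : L →+* Hyperreal) (y : L) :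
    y ∈ (plc Φ).nonunits ↔ 0 < ArchimedeanClass.mk (Φ y) := by
  rw [ValuationSubring.mem_nonunits_iff_or, mem_plc, map_inv₀, ArchimedeanClass.mk_inv, not_le]
  constructor
  · rintro (h | h)
    · rw [h, map_zero, ArchimedeanClass.mk_zero]
      exact LinearOrderedAddCommGroupWithTop.top_pos
    · have := LinearOrderedAddCommGroupWithTop.neg_pos.2 (Or.inl h)
      rwa [neg_neg] at this
  · intro h
    rcases eq_or_ne y 0 with h0 | h0
    · exact Or.inl h0
    · right
      have h1 : ArchimedeanClass.mk (Φ y) ≠ ⊤ := by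
        rw [Ne, ArchimedeanClass.mk_eq_top_iff, map_eq_zero]
        exact h0
      rw [← neg_neg (ArchimedeanClass.mk (Φ y)), LinearOrderedAddCommGroupWithTop.neg_pos] at h
      rcases h with h | h
      · exact h
      · exact absurd (LinearOrderedAddCommGroupWithTop.neg_eq_top.1 h) h1

/-- the residue map -/
noncomputable def plcRes {L : Type} [Field L] (Φ : L →+* Hyperreal) : plc Φ →+* ℝ where
  toFun y := stdPart (Φ (y : L))
  map_one' := by
    change stdPart (Φ ((1 : plc Φ) : L)) = 1
    rw [OneMemClass.coe_one, map_one, stdPart_one]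
  map_mul' a b := by
    change stdPart (Φ ((a * b : plc Φ) : L)) = stdPart (Φ (a : L)) * stdPart (Φ (b : L))
    rw [MulMemClass.coe_mul, map_mul]
    exact stdPart_mul a.2 b.2
  map_zero' := by
    change stdPart (Φ ((0 : plc Φ) : L)) = 0
    rw [ZeroMemClass.coe_zero, map_zero, stdPart_zero]
  map_add' a b := by
    change stdPart (Φ ((a + b : plc Φ) : L)) = stdPart (Φ (a : L)) + stdPart (Φ (b : L))
    rw [AddMemClass.coe_add, map_add]
    exact stdPart_add a.2 b.2

theorem tPlc : PlcStmt := by
  intro L _ _ Φ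
  refine ⟨plc Φ, mem_plc Φ, ?_, mem_plc_nonunits Φ, plcRes Φ, fun y => rfl, ?_⟩
  · intro q
    rw [mem_plc, eq_ratCast, map_ratCast]
    exact ArchimedeanClass.mk_ratCast_nonneg q
  · intro y
    rw [mem_plc_nonunits]
    change stdPart (Φ (y : L)) = 0 ↔ _
    rw [stdPart_eq_zero]
    constructor
    · intro h
      exact lt_of_le_of_ne y.2 (Ne.symm h)
    · intro h
      exact h.ne'

end MP9f7b43.L
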