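import Pool.Agent.Lib.MP_9f7b43_nt.L.Spec
import Pool.Agent.Lib.MP_9f7b43_nt.L.Alg

set_option autoImplicit false

namespace MP9f7b43.L

theorem tRnk : RnkStmt := by
  intro L _ _ htr V hV f g hf hg hg0
  rw [ValuationSubring.mem_nonunits_iff] at hf hg
  obtain ⟨k, hk⟩ := rank_one (dep_of_trdeg htr) V hV f g hf hg0 hg
  refine ⟨k, ?_⟩
  have hv : V.valuation g ≠ 0 := (Valuation.ne_zero_iff _).2 hg0
  rw [← ValuationSubring.valuation_le_one_iff, map_div₀]
  exact (div_le_one₀ (zero_lt_iff.2 hv)).2 hk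

end MP9f7b43.L
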