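import Pool.Agent.Lib.MP_9f7b43_nt.L.Zer
import Pool.Agent.Lib.MP_9f7b43_nt.L.Phi
import Pool.Agent.Lib.MP_9f7b43_nt.L.Clo
import Pool.Agent.Lib.MP_9f7b43_nt.L.Rnk
import Pool.Agent.Lib.MP_9f7b43_nt.L.Plc
import Pool.Agent.Lib.MP_9f7b43_nt.L.Gen
import Pool.Agent.Lib.MP_9f7b43_nt.L.Nea
import Pool.Agent.Lib.MP_9f7b43_nt.L.Hth

namespace MP9f7b43.L

open Filter

/-- Part L: there is no critical sequence. -/
theorem tMain : MainStmt := by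
  intro hSD hOO r hr hinj L _ _ x p N δ hC hS hN hint hδ hlim hF h1 hu hv hcr
  have hc : Crit r p N δ := ⟨hinj, hN, hint, hδ, hlim, hF, h1, hu, hv, hcr⟩
  obtain ⟨Φ, hΦ⟩ := tPhi I9 L x p hC hS
  obtain ⟨nt, nn⟩ := tNea r p N δ hc
  obtain ⟨hV, F, hFfin, hF2, hst⟩ := hSD I9 L x p N hC hS hN hint nt nn Φ hΦ
  obtain ⟨O, hO, hQ, hOn, res, hres, hres0⟩ := tPlc L Φ
  obtain ⟨s, hs0, hs1, hsu, hsv, hsz, hs4, hs5⟩ :=
    tHth tRnk r p N δ hc L x hC.trdeg Φ hΦ O hQ hO hOn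
  refine hOO L x hC (tClo I9 L x p hC hS) (tGen r hr hinj L x p hC hS hF) O hQ ?_ F hFfin hF2
    res ?_ hres0 s hs0 hs1 hsu hsv hsz hs4 hs5
  · intro V hVQ hVx
    exact ValuationSubring.ext V O fun y => (hV V hVQ hVx y).trans (hO y).symm
  · intro y
    rw [hres]
    exact hst y ((hO y).mp y.2)

end MP9f7b43.L
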