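import Pool.Agent.Lib.MP_9f7b43_nt.L.Spec

namespace MP9f7b43.L

theorem tEst : EstStmt := by
  intro u v z δ hδ hδ1 hF h1 hu hv
  set R : ℝ := max 1 (max ‖u‖ ‖v‖) with hR
  have hR1 : 1 ≤ R := le_max_left _ _
  have huR : ‖u‖ ≤ R := le_trans (le_max_left _ _) (le_max_right _ _)
  have hvR : ‖v‖ ≤ R := le_trans (le_max_right _ _) (le_max_right _ _)
  have hRz : R ≤ δ * ‖z‖ := max_le h1 (max_le hu hv)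
  have hz0 : 0 ≤ ‖z‖ := norm_nonneg z
  have hRz' : R ≤ ‖z‖ := le_trans hRz (by nlinarith)
  have hzpos : 0 < ‖z‖ := by linarith
  have hz2 : z ^ 2 = -((u ^ 2 - u * v + v ^ 2) * z + 4 * u ^ 3 - 15 * u ^ 2 * v + 3 * u * v ^ 2
      + 4 * v ^ 3 + 56 * z + 931) := by
    have := hF
    unfold Faff at this
    linear_combination this
  have hn : ‖z‖ ^ 2 ≤ 3 * R ^ 2 * ‖z‖ + 26 * R ^ 3 + 56 * ‖z‖ + 931 := by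
    rw [← norm_pow, hz2, norm_neg]
    have hu2 : ‖u‖ ^ 2 ≤ R ^ 2 := by gcongr
    have hv2 : ‖v‖ ^ 2 ≤ R ^ 2 := by gcongr
    have huv : ‖u‖ * ‖v‖ ≤ R ^ 2 := by
      calc ‖u‖ * ‖v‖ ≤ R * R := by gcongr
        _ = R ^ 2 := by ring
    have e1 : ‖(u ^ 2 - u * v + v ^ 2) * z‖ ≤ 3 * R ^ 2 * ‖z‖ := by
      rw [norm_mul]
      have : ‖u ^ 2 - u * v + v ^ 2‖ ≤ 3 * R ^ 2 := by
        calc ‖u ^ 2 - u * v + v ^ 2‖ ≤ ‖u ^ 2 - u * v‖ + ‖v ^ 2‖ := norm_add_le _ _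
          _ ≤ ‖u ^ 2‖ + ‖u * v‖ + ‖v ^ 2‖ := by gcongr; exact norm_sub_le _ _
          _ ≤ 3 * R ^ 2 := by
              rw [norm_pow, norm_mul, norm_pow]; linarith
      gcongr
    have e2 : ‖(4 : ℂ) * u ^ 3‖ ≤ 4 * R ^ 3 := by
      rw [norm_mul, norm_pow]; norm_num; gcongr
    have e3 : ‖(15 : ℂ) * u ^ 2 * v‖ ≤ 15 * R ^ 3 := by
      rw [norm_mul, norm_mul, norm_pow]
      have : ‖u‖ ^ 2 * ‖v‖ ≤ R ^ 2 * R := by gcongr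
      norm_num
      nlinarith
    have e4 : ‖(3 : ℂ) * u * v ^ 2‖ ≤ 3 * R ^ 3 := by
      rw [norm_mul, norm_mul, norm_pow]
      have : ‖u‖ * ‖v‖ ^ 2 ≤ R * R ^ 2 := by gcongr
      norm_num
      nlinarith
    have e5 : ‖(4 : ℂ) * v ^ 3‖ ≤ 4 * R ^ 3 := by
      rw [norm_mul, norm_pow]; norm_num; gcongr
    have e6 : ‖(56 : ℂ) * z‖ = 56 * ‖z‖ := by
      rw [norm_mul]; norm_num
    have e7 : ‖(931 : ℂ)‖ = 931 := by norm_num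
    calc ‖(u ^ 2 - u * v + v ^ 2) * z + 4 * u ^ 3 - 15 * u ^ 2 * v + 3 * u * v ^ 2
          + 4 * v ^ 3 + 56 * z + 931‖
        ≤ ‖(u ^ 2 - u * v + v ^ 2) * z + 4 * u ^ 3 - 15 * u ^ 2 * v + 3 * u * v ^ 2
          + 4 * v ^ 3 + 56 * z‖ + ‖(931 : ℂ)‖ := norm_add_le _ _
      _ ≤ ‖(u ^ 2 - u * v + v ^ 2) * z + 4 * u ^ 3 - 15 * u ^ 2 * v + 3 * u * v ^ 2
          + 4 * v ^ 3‖ + ‖(56 : ℂ) * z‖ + ‖(931 : ℂ)‖ := by gcongr; exact norm_add_le _ _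
      _ ≤ ‖(u ^ 2 - u * v + v ^ 2) * z + 4 * u ^ 3 - 15 * u ^ 2 * v + 3 * u * v ^ 2‖
          + ‖(4 : ℂ) * v ^ 3‖ + ‖(56 : ℂ) * z‖ + ‖(931 : ℂ)‖ := by gcongr; exact norm_add_le _ _
      _ ≤ ‖(u ^ 2 - u * v + v ^ 2) * z + 4 * u ^ 3 - 15 * u ^ 2 * v‖ + ‖(3 : ℂ) * u * v ^ 2‖
          + ‖(4 : ℂ) * v ^ 3‖ + ‖(56 : ℂ) * z‖ + ‖(931 : ℂ)‖ := by gcongr; exact norm_add_le _ _
      _ ≤ ‖(u ^ 2 - u * v + v ^ 2) * z + 4 * u ^ 3‖ + ‖(15 : ℂ) * u ^ 2 * v‖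
          + ‖(3 : ℂ) * u * v ^ 2‖
          + ‖(4 : ℂ) * v ^ 3‖ + ‖(56 : ℂ) * z‖ + ‖(931 : ℂ)‖ := by gcongr; exact norm_sub_le _ _
      _ ≤ ‖(u ^ 2 - u * v + v ^ 2) * z‖ + ‖(4 : ℂ) * u ^ 3‖ + ‖(15 : ℂ) * u ^ 2 * v‖
          + ‖(3 : ℂ) * u * v ^ 2‖
          + ‖(4 : ℂ) * v ^ 3‖ + ‖(56 : ℂ) * z‖ + ‖(931 : ℂ)‖ := by gcongr; exact norm_add_le _ _
      _ ≤ 3 * R ^ 2 * ‖z‖ + 26 * R ^ 3 + 56 * ‖z‖ + 931 := by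
          rw [e6, e7]; linarith
  have hR2 : 1 ≤ R ^ 2 := by nlinarith
  have hR3 : R ^ 3 ≤ R ^ 2 * ‖z‖ := by
    have : R ^ 2 * R ≤ R ^ 2 * ‖z‖ := by gcongr
    nlinarith
  have hone : 1 ≤ R ^ 2 * ‖z‖ := by
    have : 1 ≤ ‖z‖ := by linarith
    nlinarith
  have hzz : ‖z‖ ≤ R ^ 2 * ‖z‖ := by nlinarith
  have hmain : ‖z‖ * ‖z‖ ≤ (1016 * R ^ 2) * ‖z‖ := by nlinarith
  have hA : ‖z‖ ≤ 1016 * R ^ 2 := le_of_mul_le_mul_right hmain hzpos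
  have hB : 1 ≤ 1016 * δ * R := by
    have h : R ≤ δ * (1016 * R ^ 2) := le_trans hRz (by gcongr)
    have hRpos : 0 < R := by linarith
    have h' : R * 1 ≤ R * (1016 * δ * R) := by nlinarith
    exact le_of_mul_le_mul_left h' hRpos
  refine ⟨hA, hB, ?_⟩
  calc (1 : ℝ) ≤ 1016 * δ * R := hB
    _ ≤ 1016 * δ * (δ * ‖z‖) := by gcongr
    _ = 1016 * δ ^ 2 * ‖z‖ := by ring

end MP9f7b43.L
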