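import Pool.Agent.Lib.MP_9f7b43_nt.L.Spec

namespace MP9f7b43.L

theorem tVdm : VdmStmt := by
  intro r hr
  set V : Matrix (Fin 3) (Fin 3) ℂ := Matrix.vandermonde r with hV
  have hdet : IsUnit V.det := by
    rw [isUnit_iff_ne_zero, hV, Matrix.det_vandermonde_ne_zero_iff]
    exact hr
  set W : Matrix (Fin 3) (Fin 3) ℂ := V⁻¹ with hW
  have hWV : W * V = 1 := Matrix.nonsing_inv_mul V hdet
  set C1 : ℝ := ∑ l, ∑ s, ‖W l s‖ with hC1
  set C2 : ℝ := ∑ s : Fin 3, ∑ l : Fin 3, ‖r s ^ (l : ℕ)‖ with hC2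
  have hC1n : 0 ≤ C1 := Finset.sum_nonneg fun _ _ => Finset.sum_nonneg fun _ _ => norm_nonneg _
  have hC2n : 0 ≤ C2 := Finset.sum_nonneg fun _ _ => Finset.sum_nonneg fun _ _ => norm_nonneg _
  have hWle : ∀ l s, ‖W l s‖ ≤ C1 := by
    intro l s
    calc ‖W l s‖ ≤ ∑ s, ‖W l s‖ :=
          Finset.single_le_sum (f := fun s => ‖W l s‖) (fun _ _ => norm_nonneg _)
            (Finset.mem_univ s)
      _ ≤ C1 := Finset.single_le_sum (f := fun l => ∑ s, ‖W l s‖)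
            (fun _ _ => Finset.sum_nonneg fun _ _ => norm_nonneg _) (Finset.mem_univ l)
  have hVle : ∀ s l : Fin 3, ‖r s ^ (l : ℕ)‖ ≤ C2 := by
    intro s l
    calc ‖r s ^ (l : ℕ)‖ ≤ ∑ l : Fin 3, ‖r s ^ (l : ℕ)‖ :=
          Finset.single_le_sum (f := fun l : Fin 3 => ‖r s ^ (l : ℕ)‖) (fun _ _ => norm_nonneg _)
            (Finset.mem_univ l)
      _ ≤ C2 := Finset.single_le_sum (f := fun s => ∑ l : Fin 3, ‖r s ^ (l : ℕ)‖)
            (fun _ _ => Finset.sum_nonneg fun _ _ => norm_nonneg _) (Finset.mem_univ s)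
  have hcomp : ∀ (p : I9 → ℚ) (j s : Fin 3),
      comp (r s) p j = (V.mulVec fun l => ((p (j, l) : ℚ) : ℂ)) s := by
    intro p j s
    simp only [comp, hV, Matrix.mulVec, dotProduct, Matrix.vandermonde_apply]
    exact Finset.sum_congr rfl fun l _ => mul_comm _ _
  have hinv : ∀ (p : I9 → ℚ) (j l : Fin 3),
      ((p (j, l) : ℚ) : ℂ) = ∑ s, W l s * comp (r s) p j := by
    intro p j l
    have h1 : (W.mulVec (V.mulVec fun l => ((p (j, l) : ℚ) : ℂ))) l = ((p (j, l) : ℚ) : ℂ) := by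
      rw [Matrix.mulVec_mulVec, hWV, Matrix.one_mulVec]
    rw [← h1]
    simp only [Matrix.mulVec, dotProduct]
    refine Finset.sum_congr rfl fun s _ => ?_
    rw [hcomp]
    rfl
  refine ⟨1 + C1 + C2, by linarith, ?_, ?_⟩
  · intro p j l
    have h2 : ‖((p (j, l) : ℚ) : ℂ)‖ = |(p (j, l) : ℝ)| := by
      rw [← Complex.ofReal_ratCast, Complex.norm_real, Real.norm_eq_abs]
    rw [← h2, hinv p j l]
    calc ‖∑ s, W l s * comp (r s) p j‖ ≤ ∑ s, ‖W l s * comp (r s) p j‖ := norm_sum_le _ _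
      _ = ∑ s, ‖W l s‖ * ‖comp (r s) p j‖ := by simp only [norm_mul]
      _ ≤ ∑ s, (1 + C1 + C2) * ‖comp (r s) p j‖ := by
          refine Finset.sum_le_sum fun s _ => ?_
          have := hWle l s
          gcongr
          linarith
      _ = (1 + C1 + C2) * ∑ s, ‖comp (r s) p j‖ := by rw [Finset.mul_sum]
  · intro p j s
    calc ‖comp (r s) p j‖ ≤ ∑ l : Fin 3, ‖((p (j, l) : ℚ) : ℂ) * r s ^ (l : ℕ)‖ :=
          norm_sum_le _ _
      _ = ∑ l : Fin 3, |(p (j, l) : ℝ)| * ‖r s ^ (l : ℕ)‖ := by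
          refine Finset.sum_congr rfl fun l _ => ?_
          rw [norm_mul, ← Complex.ofReal_ratCast, Complex.norm_real, Real.norm_eq_abs]
      _ ≤ ∑ l : Fin 3, |(p (j, l) : ℝ)| * (1 + C1 + C2) := by
          refine Finset.sum_le_sum fun l _ => ?_
          have := hVle s l
          gcongr
          linarith
      _ = (1 + C1 + C2) * ∑ l, |(p (j, l) : ℝ)| := by rw [← Finset.sum_mul, mul_comm]

end MP9f7b43.L
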