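import Pool.Agent.Lib.MP_9f7b43_nt.L.Est
import Pool.Agent.Lib.MP_9f7b43_nt.L.Vdm

namespace MP9f7b43.L

open Filter

theorem ev_rpow {δ : ℕ → ℝ} (hpos : ∀ n, 0 < δ n) (hlim : Tendsto δ atTop (nhds 0)) (K a b : ℝ)
    (hK : 0 < K) (hab : a < b) : ∀ᶠ n in atTop, K * δ n ^ (-a) ≤ δ n ^ (-b) := by
  have hc : 0 < b - a := by linarith
  have h1 : Tendsto (fun n => δ n ^ (b - a)) atTop (nhds 0) := by
    have := (Real.continuousAt_rpow_const 0 (b - a) (Or.inr hc.le)).tendsto.comp hlim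
    rw [Real.zero_rpow hc.ne'] at this
    exact this
  have h2 : ∀ᶠ n in atTop, δ n ^ (b - a) < 1 / K := h1.eventually_lt_const (by positivity)
  filter_upwards [h2] with n hn
  have h3 : δ n ^ (-b) * δ n ^ (b - a) = δ n ^ (-a) := by
    rw [← Real.rpow_add (hpos n)]
    congr 1
    ring
  rw [← h3]
  have h4 : 0 < δ n ^ (-b) := Real.rpow_pos_of_pos (hpos n) _
  have h5 : K * δ n ^ (b - a) ≤ 1 := by
    have : K * δ n ^ (b - a) ≤ K * (1 / K) := by gcongr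
    rwa [mul_one_div_cancel hK.ne'] at this
  nlinarith

theorem tGro : GroStmt := by
  intro r p N δ hc
  obtain ⟨C0, hC0, hV1, hV2⟩ := tVdm r hc.inj
  have hC0p : 0 < C0 := by linarith
  set S : ℕ → ℝ := fun n => ∑ l, (|(p n (0, l) : ℝ)| + |(p n (1, l) : ℝ)|) with hS
  set Z : ℕ → ℝ := fun n => ∑ l, |(p n (2, l) : ℝ)| with hZ
  have hSn : ∀ n, 0 ≤ S n := fun n =>
    Finset.sum_nonneg fun l _ => add_nonneg (abs_nonneg _) (abs_nonneg _)
  have hu0 : ∀ n s, ‖comp (r s) (p n) 0‖ ≤ C0 * S n := by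
    intro n s
    refine le_trans (hV2 (p n) 0 s) ?_
    gcongr
    exact Finset.sum_le_sum fun l _ => le_add_of_nonneg_right (abs_nonneg _)
  have hv0 : ∀ n s, ‖comp (r s) (p n) 1‖ ≤ C0 * S n := by
    intro n s
    refine le_trans (hV2 (p n) 1 s) ?_
    gcongr
    exact Finset.sum_le_sum fun l _ => le_add_of_nonneg_left (abs_nonneg _)
  have hz0 : ∀ n s, ‖comp (r s) (p n) 2‖ ≤ C0 * Z n := fun n s => hV2 (p n) 2 s
  have hev1 : ∀ᶠ n in atTop, δ n ≤ 1 :=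
    (hc.lim.eventually_lt_const (show (0 : ℝ) < 1 by norm_num)).mono fun n h => h.le
  have hev2 : ∀ᶠ n in atTop, δ n < 1 / 1016 :=
    hc.lim.eventually_lt_const (by norm_num)
  -- local estimates
  have hest : ∀ᶠ n in atTop, ∀ s,
      ‖comp (r s) (p n) 2‖ ≤ 1016 * (max 1 (max ‖comp (r s) (p n) 0‖ ‖comp (r s) (p n) 1‖)) ^ 2 ∧
      1 ≤ 1016 * δ n * max 1 (max ‖comp (r s) (p n) 0‖ ‖comp (r s) (p n) 1‖) ∧
      1 ≤ 1016 * δ n ^ 2 * ‖comp (r s) (p n) 2‖ := by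
    filter_upwards [hev1] with n hn s
    exact tEst _ _ _ (δ n) (hc.δpos n) hn (hc.surf n s) (hc.one n s) (hc.u_le n s) (hc.v_le n s)
  have hR : ∀ᶠ n in atTop, ∀ s,
      max 1 (max ‖comp (r s) (p n) 0‖ ‖comp (r s) (p n) 1‖) ≤ C0 * S n := by
    filter_upwards [hest, hev2] with n hn hn2 s
    obtain ⟨-, h2, -⟩ := hn s
    have hm : max ‖comp (r s) (p n) 0‖ ‖comp (r s) (p n) 1‖ ≤ C0 * S n :=
      max_le (hu0 n s) (hv0 n s)
    have hδ := hc.δpos n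
    have hmax1 : 1 < max 1 (max ‖comp (r s) (p n) 0‖ ‖comp (r s) (p n) 1‖) := by
      by_contra hcon
      push Not at hcon
      have : 1016 * δ n * max 1 (max ‖comp (r s) (p n) 0‖ ‖comp (r s) (p n) 1‖)
          ≤ 1016 * δ n * 1 := by gcongr
      linarith
    rcases le_total (max ‖comp (r s) (p n) 0‖ ‖comp (r s) (p n) 1‖) 1 with h | h
    · rw [max_eq_left h] at hmax1
      exact absurd hmax1 (lt_irrefl _)
    · rw [max_eq_right h]
      exact hm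
  -- upper bound of `‖z‖`
  have hprod : ∀ n, ∏ s, ‖comp (r s) (p n) 2‖
      = ‖comp (r 0) (p n) 2‖ * ‖comp (r 1) (p n) 2‖ * ‖comp (r 2) (p n) 2‖ := fun n => by
    rw [Fin.prod_univ_three]
  have hzup : ∀ ε : ℝ, 0 < ε → ∀ᶠ n in atTop, ∀ s,
      ‖comp (r s) (p n) 2‖ ≤ 1016 ^ 2 * δ n ^ (-2 - ε) := by
    intro ε hε
    filter_upwards [hest, hc.crit ε hε] with n hn hcr s
    have hδ := hc.δpos n
    have hN : (1 : ℝ) ≤ N n := by exact_mod_cast hc.Npos n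
    rw [hprod] at hcr
    have hlow : ∀ t, 1 ≤ 1016 * δ n ^ 2 * ‖comp (r t) (p n) 2‖ := fun t => (hn t).2.2
    -- the product of the two other ones
    have key : ∀ a b c : ℝ, 0 ≤ a → 0 ≤ b → 0 ≤ c → 1 ≤ 1016 * δ n ^ 2 * b →
        1 ≤ 1016 * δ n ^ 2 * c → δ n ^ (6 + ε) * ((N n : ℝ) * (a * b * c)) ≤ 1 →
        a ≤ 1016 ^ 2 * δ n ^ (-2 - ε) := by
      intro a b c ha hb hc' h1 h2 h3
      have hp6 : 0 < δ n ^ (6 + ε) := Real.rpow_pos_of_pos hδ _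
      have hp2 : δ n ^ (-2 - ε) = (δ n ^ (6 + ε))⁻¹ * δ n ^ 4 := by
        rw [← Real.rpow_neg hδ.le, ← Real.rpow_natCast, ← Real.rpow_add hδ]
        congr 1
        push_cast
        ring
      have h4 : 1 ≤ (1016 * δ n ^ 2 * b) * (1016 * δ n ^ 2 * c) := by nlinarith
      have h5 : δ n ^ (6 + ε) * (a * b * c) ≤ 1 := by
        refine le_trans ?_ h3
        have h0 : 0 ≤ a * b * c := by positivity
        have : a * b * c ≤ (N n : ℝ) * (a * b * c) := by nlinarith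
        gcongr
      have h6 : δ n ^ (6 + ε) * a ≤ 1016 ^ 2 * δ n ^ 4 := by
        have h0 : 0 ≤ δ n ^ (6 + ε) * a := by positivity
        calc δ n ^ (6 + ε) * a = (δ n ^ (6 + ε) * a) * 1 := by ring
          _ ≤ (δ n ^ (6 + ε) * a) * ((1016 * δ n ^ 2 * b) * (1016 * δ n ^ 2 * c)) := by gcongr
          _ = (1016 ^ 2 * δ n ^ 4) * (δ n ^ (6 + ε) * (a * b * c)) := by ring
          _ ≤ (1016 ^ 2 * δ n ^ 4) * 1 := by gcongr
          _ = 1016 ^ 2 * δ n ^ 4 := by ring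
      rw [hp2]
      calc a = (δ n ^ (6 + ε))⁻¹ * (δ n ^ (6 + ε) * a) := by
            rw [← mul_assoc, inv_mul_cancel₀ hp6.ne', one_mul]
        _ ≤ (δ n ^ (6 + ε))⁻¹ * (1016 ^ 2 * δ n ^ 4) := by gcongr
        _ = 1016 ^ 2 * ((δ n ^ (6 + ε))⁻¹ * δ n ^ 4) := by ring
    have hn0 : ∀ t, 0 ≤ ‖comp (r t) (p n) 2‖ := fun t => norm_nonneg _
    have h0 := key _ _ _ (hn0 0) (hn0 1) (hn0 2) (hlow 1) (hlow 2) hcr
    have h1 := key _ _ _ (hn0 1) (hn0 0) (hn0 2) (hlow 0) (hlow 2)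
      (by rw [show ‖comp (r 1) (p n) 2‖ * ‖comp (r 0) (p n) 2‖ * ‖comp (r 2) (p n) 2‖
            = ‖comp (r 0) (p n) 2‖ * ‖comp (r 1) (p n) 2‖ * ‖comp (r 2) (p n) 2‖ by ring]
          exact hcr)
    have h2 := key _ _ _ (hn0 2) (hn0 0) (hn0 1) (hlow 0) (hlow 1)
      (by rw [show ‖comp (r 2) (p n) 2‖ * ‖comp (r 0) (p n) 2‖ * ‖comp (r 1) (p n) 2‖
            = ‖comp (r 0) (p n) 2‖ * ‖comp (r 1) (p n) 2‖ * ‖comp (r 2) (p n) 2‖ by ring]
          exact hcr)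
    fin_cases s
    · exact h0
    · exact h1
    · exact h2
  refine ⟨3 * 1016 * C0 ^ 3, ?_, ?_, ?_, ?_, ?_, ?_⟩
  · have : 1 ≤ C0 ^ 3 := one_le_pow₀ hC0
    nlinarith
  · filter_upwards [hest, hR] with n hn hRn l
    have h1 : ∀ s, ‖comp (r s) (p n) 2‖ ≤ 1016 * (C0 * S n) ^ 2 := by
      intro s
      refine le_trans (hn s).1 ?_
      have := hRn s
      have h0 : (0 : ℝ) ≤ max 1 (max ‖comp (r s) (p n) 0‖ ‖comp (r s) (p n) 1‖) :=
        le_trans zero_le_one (le_max_left _ _)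
      gcongr
    calc |(p n (2, l) : ℝ)| ≤ C0 * ∑ s, ‖comp (r s) (p n) 2‖ := hV1 (p n) 2 l
      _ ≤ C0 * ∑ _s : Fin 3, 1016 * (C0 * S n) ^ 2 := by
          gcongr with s _
          exact h1 s
      _ = 3 * 1016 * C0 ^ 3 * (S n) ^ 2 := by
          rw [Finset.sum_const, Finset.card_univ, Fintype.card_fin, nsmul_eq_mul]
          push_cast
          ring
  · filter_upwards [hest] with n hn
    have h1 := (hn 0).2.2
    have hδ := hc.δpos n
    have hZn : 0 ≤ Z n := Finset.sum_nonneg fun l _ => abs_nonneg _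
    have hC1 : 1016 * C0 ≤ 3 * 1016 * C0 ^ 3 := by
      have : C0 ≤ C0 ^ 3 := le_self_pow₀ hC0 (by norm_num)
      nlinarith
    calc 1 ≤ 1016 * δ n ^ 2 * ‖comp (r 0) (p n) 2‖ := h1
      _ ≤ 1016 * δ n ^ 2 * (C0 * Z n) := by
          have := hz0 n 0
          gcongr
      _ = (1016 * C0) * (δ n ^ 2 * Z n) := by ring
      _ ≤ (3 * 1016 * C0 ^ 3) * (δ n ^ 2 * Z n) := by gcongr
      _ = 3 * 1016 * C0 ^ 3 * δ n ^ 2 * Z n := by ring
  · filter_upwards [hest, hR] with n hn hRn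
    have h1 := (hn 0).2.1
    have hδ := hc.δpos n
    have hC1 : 1016 * C0 ≤ 3 * 1016 * C0 ^ 3 := by
      have : C0 ≤ C0 ^ 3 := le_self_pow₀ hC0 (by norm_num)
      nlinarith
    have hSn' := hSn n
    calc 1 ≤ 1016 * δ n * max 1 (max ‖comp (r 0) (p n) 0‖ ‖comp (r 0) (p n) 1‖) := h1
      _ ≤ 1016 * δ n * (C0 * S n) := by
          have := hRn 0
          gcongr
      _ = (1016 * C0) * (δ n * S n) := by ring
      _ ≤ (3 * 1016 * C0 ^ 3) * (δ n * S n) := by gcongr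
      _ = 3 * 1016 * C0 ^ 3 * δ n * S n := by ring
  · intro ε hε
    have hev := ev_rpow hc.δpos hc.lim (1016 ^ 3) (ε / 2) ε (by norm_num) (by linarith)
    filter_upwards [hest, hc.crit (ε / 2) (by linarith), hev] with n hn hcr hn3
    refine le_trans ?_ hn3
    have hδ := hc.δpos n
    have hlow : ∀ t, 1 ≤ 1016 * δ n ^ 2 * ‖comp (r t) (p n) 2‖ := fun t => (hn t).2.2
    rw [hprod] at hcr
    set a := ‖comp (r 0) (p n) 2‖
    set b := ‖comp (r 1) (p n) 2‖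
    set c := ‖comp (r 2) (p n) 2‖
    have ha : 0 ≤ a := norm_nonneg _
    have hb : 0 ≤ b := norm_nonneg _
    have hcc : 0 ≤ c := norm_nonneg _
    have h4 : 1 ≤ (1016 * δ n ^ 2 * a) * ((1016 * δ n ^ 2 * b) * (1016 * δ n ^ 2 * c)) := by
      have h12 : 1 ≤ (1016 * δ n ^ 2 * b) * (1016 * δ n ^ 2 * c) := by
        nlinarith [hlow 1, hlow 2]
      nlinarith [hlow 0]
    have hp6 : δ n ^ (6 + ε / 2) = δ n ^ 6 * (δ n ^ (-(ε / 2)))⁻¹ := by
      rw [← Real.rpow_neg hδ.le, ← Real.rpow_natCast, ← Real.rpow_add hδ]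
      congr 1
      push_cast
      ring
    have hpp : 0 < δ n ^ (-(ε / 2)) := Real.rpow_pos_of_pos hδ _
    have hN0 : (0 : ℝ) ≤ N n := Nat.cast_nonneg _
    have h7 : (N n : ℝ) * (δ n ^ (-(ε / 2)))⁻¹ ≤ 1016 ^ 3 := by
      calc (N n : ℝ) * (δ n ^ (-(ε / 2)))⁻¹
          = ((N n : ℝ) * (δ n ^ (-(ε / 2)))⁻¹) * 1 := by ring
        _ ≤ ((N n : ℝ) * (δ n ^ (-(ε / 2)))⁻¹) *
            ((1016 * δ n ^ 2 * a) * ((1016 * δ n ^ 2 * b) * (1016 * δ n ^ 2 * c))) := by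
            gcongr
        _ = 1016 ^ 3 * (δ n ^ 6 * (δ n ^ (-(ε / 2)))⁻¹ * ((N n : ℝ) * (a * b * c))) := by ring
        _ = 1016 ^ 3 * (δ n ^ (6 + ε / 2) * ((N n : ℝ) * (a * b * c))) := by rw [hp6]
        _ ≤ 1016 ^ 3 * 1 := by gcongr
        _ = 1016 ^ 3 := by ring
    calc (N n : ℝ) = ((N n : ℝ) * (δ n ^ (-(ε / 2)))⁻¹) * δ n ^ (-(ε / 2)) := by
          rw [mul_assoc, inv_mul_cancel₀ hpp.ne', mul_one]
      _ ≤ 1016 ^ 3 * δ n ^ (-(ε / 2)) := by gcongr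
  · intro ε hε
    have hev := ev_rpow hc.δpos hc.lim (18 * C0 * 1016 ^ 2) (1 + ε / 2) (1 + ε)
      (by positivity) (by linarith)
    filter_upwards [hzup (ε / 2) (by linarith), hev] with n hn hn3
    have hδ := hc.δpos n
    have e1 : δ n ^ (-1 - ε) = δ n ^ (-(1 + ε)) := by congr 1; ring
    change S n ≤ δ n ^ (-1 - ε)
    rw [e1]
    refine le_trans ?_ hn3
    have e2 : δ n ^ (-(1 + ε / 2)) = δ n * δ n ^ (-2 - ε / 2) := by
      rw [show -(1 + ε / 2) = 1 + (-2 - ε / 2) by ring, Real.rpow_add hδ, Real.rpow_one]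
    have h1 : ∀ s, ‖comp (r s) (p n) 0‖ ≤ 1016 ^ 2 * δ n ^ (-(1 + ε / 2)) := by
      intro s
      calc ‖comp (r s) (p n) 0‖ ≤ δ n * ‖comp (r s) (p n) 2‖ := hc.u_le n s
        _ ≤ δ n * (1016 ^ 2 * δ n ^ (-2 - ε / 2)) := by
            have := hn s
            gcongr
        _ = 1016 ^ 2 * δ n ^ (-(1 + ε / 2)) := by rw [e2]; ring
    have h2 : ∀ s, ‖comp (r s) (p n) 1‖ ≤ 1016 ^ 2 * δ n ^ (-(1 + ε / 2)) := by
      intro s
      calc ‖comp (r s) (p n) 1‖ ≤ δ n * ‖comp (r s) (p n) 2‖ := hc.v_le n s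
        _ ≤ δ n * (1016 ^ 2 * δ n ^ (-2 - ε / 2)) := by
            have := hn s
            gcongr
        _ = 1016 ^ 2 * δ n ^ (-(1 + ε / 2)) := by rw [e2]; ring
    have h3 : ∀ l, |(p n (0, l) : ℝ)| ≤ C0 * (3 * (1016 ^ 2 * δ n ^ (-(1 + ε / 2)))) := by
      intro l
      refine le_trans (hV1 (p n) 0 l) ?_
      gcongr
      calc ∑ s, ‖comp (r s) (p n) 0‖ ≤ ∑ _s : Fin 3, 1016 ^ 2 * δ n ^ (-(1 + ε / 2)) :=
            Finset.sum_le_sum fun s _ => h1 s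
        _ = 3 * (1016 ^ 2 * δ n ^ (-(1 + ε / 2))) := by
            rw [Finset.sum_const, Finset.card_univ, Fintype.card_fin, nsmul_eq_mul]
            push_cast
            ring
    have h4 : ∀ l, |(p n (1, l) : ℝ)| ≤ C0 * (3 * (1016 ^ 2 * δ n ^ (-(1 + ε / 2)))) := by
      intro l
      refine le_trans (hV1 (p n) 1 l) ?_
      gcongr
      calc ∑ s, ‖comp (r s) (p n) 1‖ ≤ ∑ _s : Fin 3, 1016 ^ 2 * δ n ^ (-(1 + ε / 2)) :=
            Finset.sum_le_sum fun s _ => h2 s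
        _ = 3 * (1016 ^ 2 * δ n ^ (-(1 + ε / 2))) := by
            rw [Finset.sum_const, Finset.card_univ, Fintype.card_fin, nsmul_eq_mul]
            push_cast
            ring
    calc S n ≤ ∑ _l : Fin 3, (C0 * (3 * (1016 ^ 2 * δ n ^ (-(1 + ε / 2))))
            + C0 * (3 * (1016 ^ 2 * δ n ^ (-(1 + ε / 2))))) :=
          Finset.sum_le_sum fun l _ => add_le_add (h3 l) (h4 l)
      _ = 18 * C0 * 1016 ^ 2 * δ n ^ (-(1 + ε / 2)) := by
          rw [Finset.sum_const, Finset.card_univ, Fintype.card_fin, nsmul_eq_mul]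
          push_cast
          ring

end MP9f7b43.L
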