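import Pool.Agent.Lib.MP_9f7b43_nt.L.Defs

/-!
# MP_9f7b43_nt, part L: the statements of the modules

Goal of part L: `SDStmt → OStmt → LStmt` (module `L/Main.lean`).
Every module proves one of the Props below: module `L/Xyz.lean` contains
`theorem tXyz : XyzStmt`, namespace `MP9f7b43.L`.
-/

namespace MP9f7b43.L

open MvPolynomial Filter ArchimedeanClass

/-- Module Zer (helper13). A nonzero element of the coordinate ring vanishes at finitely many of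
the points. Proof: `b = aeval x g`. If `b` is algebraic over `ℚ`, its minimal polynomial has
nonzero constant term, so `b` has nonzero value everywhere. Otherwise each `x i` is algebraic over
`ℚ(b)`: there is `P ≠ 0` in `ℚ[s,t]` with `P (b, x i) = 0`, not divisible by `s`; at a point with
`b = 0` the value of `x i` is a root of `P (0, t) ≠ 0`, finitely many possibilities for each `i`. -/
def ZerStmt : Prop :=
  ∀ (ι : Type) [Fintype ι] (L : Type) [Field L] [Algebra ℚ L] (x : ι → L) (p : ℕ → ι → ℚ),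
    CurveField x → Specs x p → ∀ g : MvPolynomial ι ℚ, aeval x g ≠ 0 →
      {n | eval (p n) g = 0}.Finite

/-- Module Phi (helper13). Existence of the evaluation homomorphism. Proof: the ring hom
`g ↦ ofSeq (n ↦ eval (p n) g)` from `ℚ[T_i]` to `ℝ*` kills the kernel of `aeval x` (by `Specs`),
and an element with `aeval x g ≠ 0` goes to a nonzero element (by `ZerStmt`, the hyperfilter
contains the cofinite filter). So it factors through an injective ring hom of the range of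
`aeval x`, whose fraction field is `L`; `IsFractionRing.lift`. -/
def PhiStmt : Prop :=
  ∀ (ι : Type) [Fintype ι] (L : Type) [Field L] [Algebra ℚ L] (x : ι → L) (p : ℕ → ι → ℚ),
    CurveField x → Specs x p → ∃ Φ : L →+* Hyperreal, EvHom x p Φ

/-- Module Clo (helper13). `ℚ` is algebraically closed in `L`. Proof: `y = aeval x g / aeval x h`
algebraic over `ℚ` with minimal polynomial `m` of degree `d`; clearing denominators
`∑ c_i g ^ i h ^ (d - i)` is killed by `aeval x`, so at a point with `h ≠ 0` (exists by `ZerStmt`)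
the rational number `eval g / eval h` is a root of `m`; `m` is irreducible, so `d = 1`. -/
def CloStmt : Prop :=
  ∀ (ι : Type) [Fintype ι] (L : Type) [Field L] [Algebra ℚ L] (x : ι → L) (p : ℕ → ι → ℚ),
    CurveField x → Specs x p → ∀ y : L, IsAlgebraic ℚ y → ∃ q : ℚ, algebraMap ℚ L q = y

/-- Module Rnk (helper13). Valuation rings of a function field of one variable have rank one.
Proof: we may assume `f ≠ 0`. `f` is transcendental over `ℚ` (an algebraic element of `V` not `0`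
is a unit, its inverse is a polynomial in it). So `g` is algebraic over `ℚ(f)`:
`∑ a_i(f) g ^ i = 0` with `a_i ∈ ℚ[T]` not all zero, `a_0 ≠ 0` after division by a power of `g`;
`a_0(f) = f ^ k * (c + f * ..)` with `c ≠ 0` rational, the bracket is a unit of `V`, and
`a_0(f) ∈ g V`. -/
def RnkStmt : Prop :=
  ∀ (L : Type) [Field L] [Algebra ℚ L], Algebra.trdeg ℚ L = 1 →
    ∀ V : ValuationSubring L, (∀ q : ℚ, algebraMap ℚ L q ∈ V) →
      ∀ f g : L, f ∈ V.nonunits → g ∈ V.nonunits → g ≠ 0 → ∃ k : ℕ, f ^ k / g ∈ V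

/-- Module Plc (helper53). The place of an evaluation homomorphism: the valuation ring of the
elements with finite value and its residue map, the standard part. -/
def PlcStmt : Prop :=
  ∀ (L : Type) [Field L] [Algebra ℚ L] (Φ : L →+* Hyperreal),
    ∃ O : ValuationSubring L, (∀ y : L, y ∈ O ↔ 0 ≤ ArchimedeanClass.mk (Φ y)) ∧
      (∀ q : ℚ, algebraMap ℚ L q ∈ O) ∧
      (∀ y : L, y ∈ O.nonunits ↔ 0 < ArchimedeanClass.mk (Φ y)) ∧
      ∃ res : O →+* ℝ, (∀ y : O, res y = stdPart (Φ y)) ∧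
        ∀ y : O, res y = 0 ↔ (y : L) ∈ O.nonunits

/-- Module Est (helper73). The local estimates at one place. Proof: `R = max 1 (max ‖u‖ ‖v‖)`,
`R ≤ δ ‖z‖ ≤ ‖z‖`; the equation gives
`‖z‖ ^ 2 ≤ 3 R ^ 2 ‖z‖ + 26 R ^ 3 + 56 ‖z‖ + 931 ≤ 1016 R ^ 2 ‖z‖`. -/
def EstStmt : Prop :=
  ∀ (u v z : ℂ) (δ : ℝ), 0 < δ → δ ≤ 1 → Faff u v z = 0 → 1 ≤ δ * ‖z‖ → ‖u‖ ≤ δ * ‖z‖ →
    ‖v‖ ≤ δ * ‖z‖ →
      ‖z‖ ≤ 1016 * (max 1 (max ‖u‖ ‖v‖)) ^ 2 ∧ 1 ≤ 1016 * δ * max 1 (max ‖u‖ ‖v‖) ∧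
        1 ≤ 1016 * δ ^ 2 * ‖z‖

/-- Module Vdm (helper73). Comparison of rational coordinates with the values at the roots. -/
def VdmStmt : Prop :=
  ∀ r : Fin 3 → ℂ, Function.Injective r → ∃ C : ℝ, 1 ≤ C ∧
    (∀ (p : I9 → ℚ) (j l : Fin 3), |(p (j, l) : ℝ)| ≤ C * ∑ s, ‖comp (r s) p j‖) ∧
    (∀ (p : I9 → ℚ) (j s : Fin 3), ‖comp (r s) p j‖ ≤ C * ∑ l, |(p (j, l) : ℝ)|)

/-- Module Gen (helper73). The equation of the surface at the generic point. Proof: let `G j` be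
the polynomial `∑ l, C (X (j,l)) t ^ l` over `ℚ[X_(j,l)]`, `R` the remainder of
`Faff (G 0) (G 1) (G 2)` modulo the monic polynomial `t ^ 3 - t - 1`. The specialisation of `R`
at `p n` has degree `≤ 2` and three distinct roots, so it is zero. By `ZerStmt` the coefficients
of `R` go to `0` in `L`. -/
def GenStmt : Prop :=
  ∀ r : Fin 3 → ℂ, (∀ s, r s ^ 3 = r s + 1) → Function.Injective r →
    ∀ (L : Type) [Field L] [Algebra ℚ L] (x : I9 → L) (p : ℕ → I9 → ℚ), CurveField x →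
      Specs x p →
      (∀ n s, Faff (comp (r s) (p n) 0) (comp (r s) (p n) 1) (comp (r s) (p n) 2) = 0) →
      OnSurf x

/-- The hypotheses of `LStmt` (except the algebraic ones). -/
structure Crit (r : Fin 3 → ℂ) (p : ℕ → I9 → ℚ) (N : ℕ → ℕ) (δ : ℕ → ℝ) : Prop where
  inj : Function.Injective r
  Npos : ∀ n, 0 < N n
  int : ∀ n i, ∃ m : ℤ, (N n : ℚ) * p n i = m
  δpos : ∀ n, 0 < δ n
  lim : Tendsto δ atTop (nhds 0)
  surf : ∀ n s, Faff (comp (r s) (p n) 0) (comp (r s) (p n) 1) (comp (r s) (p n) 2) = 0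
  one : ∀ n s, 1 ≤ δ n * ‖comp (r s) (p n) 2‖
  u_le : ∀ n s, ‖comp (r s) (p n) 0‖ ≤ δ n * ‖comp (r s) (p n) 2‖
  v_le : ∀ n s, ‖comp (r s) (p n) 1‖ ≤ δ n * ‖comp (r s) (p n) 2‖
  crit : ∀ ε : ℝ, 0 < ε → ∀ᶠ n in atTop,
    δ n ^ (6 + ε) * ((N n : ℝ) * ∏ s, ‖comp (r s) (p n) 2‖) ≤ 1

/-- Module Gro (helper73). The growth of everything in terms of `δ n`. Proof: `EstStmt`,
`VdmStmt` and the critical inequality. -/
def GroStmt : Prop :=
  ∀ (r : Fin 3 → ℂ) (p : ℕ → I9 → ℚ) (N : ℕ → ℕ) (δ : ℕ → ℝ), Crit r p N δ →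
    ∃ C : ℝ, 1 ≤ C ∧
      (∀ᶠ n in atTop, ∀ l, |(p n (2, l) : ℝ)| ≤
        C * (∑ l, (|(p n (0, l) : ℝ)| + |(p n (1, l) : ℝ)|)) ^ 2) ∧
      (∀ᶠ n in atTop, 1 ≤ C * δ n ^ 2 * ∑ l, |(p n (2, l) : ℝ)|) ∧
      (∀ᶠ n in atTop, 1 ≤ C * δ n * ∑ l, (|(p n (0, l) : ℝ)| + |(p n (1, l) : ℝ)|)) ∧
      (∀ ε : ℝ, 0 < ε → ∀ᶠ n in atTop, (N n : ℝ) ≤ δ n ^ (-ε)) ∧
      (∀ ε : ℝ, 0 < ε → ∀ᶠ n in atTop,
        ∑ l, (|(p n (0, l) : ℝ)| + |(p n (1, l) : ℝ)|) ≤ δ n ^ (-1 - ε))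

/-- Module Nea (helper73). The hypotheses of `SDStmt`. -/
def NeaStmt : Prop :=
  ∀ (r : Fin 3 → ℂ) (p : ℕ → I9 → ℚ) (N : ℕ → ℕ) (δ : ℕ → ℝ), Crit r p N δ →
    Tendsto (fun n => ∑ i, |(p n i : ℝ)|) atTop atTop ∧
    ∀ ε : ℝ, 0 < ε → ∀ᶠ n in atTop, (N n : ℝ) ≤ (∑ i, |(p n i : ℝ)|) ^ ε

/-- Module Hth (helper73). The element `s` of Theorem O. Proof: `s = 1 / x i0`, where `|Φ (x i0)|`
is maximal among `i0 = (0,l), (1,l)`; if `f = s ^ 2 * x (2,l0)` is a nonunit, where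
`|Φ (x (2,l0))|` is maximal, then `f ^ k / s ∈ O` for some `k ≥ 1` (`RnkStmt`), which contradicts
the growth (`GroStmt` with `ε = 1 / (4 k)`). -/
def HthStmt : Prop :=
  ∀ (r : Fin 3 → ℂ) (p : ℕ → I9 → ℚ) (N : ℕ → ℕ) (δ : ℕ → ℝ), Crit r p N δ →
    ∀ (L : Type) [Field L] [Algebra ℚ L] (x : I9 → L), Algebra.trdeg ℚ L = 1 →
      ∀ Φ : L →+* Hyperreal, EvHom x p Φ →
      ∀ O : ValuationSubring L, (∀ q : ℚ, algebraMap ℚ L q ∈ O) →
      (∀ y : L, y ∈ O ↔ 0 ≤ ArchimedeanClass.mk (Φ y)) →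
      (∀ y : L, y ∈ O.nonunits ↔ 0 < ArchimedeanClass.mk (Φ y)) →
      ∃ s : L, s ≠ 0 ∧ s ∈ O.nonunits ∧
        (∀ l : Fin 3, s * x (0, l) ∈ O) ∧ (∀ l : Fin 3, s * x (1, l) ∈ O) ∧
        (∀ l : Fin 3, s ^ 2 * x (2, l) ∈ O) ∧
        (∃ l : Fin 3, s * x (0, l) ∉ O.nonunits ∨ s * x (1, l) ∉ O.nonunits) ∧
        (∃ l : Fin 3, s ^ 2 * x (2, l) ∉ O.nonunits)

/-- Module Main (helper73). -/
def MainStmt : Prop := SDStmt → OStmt → LStmt

end MP9f7b43.L
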