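import Pool.Agent.Lib.MP_9f7b43_nt.L.Spec
import Pool.Agent.Lib.MP_9f7b43_nt.L.Alg

set_option autoImplicit false

namespace MP9f7b43.L

theorem tZer : ZerStmt := by
  intro ι _ L _ _ x p hC hS g hg
  exact fin_zeros hC hS g hg

end MP9f7b43.L
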